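import Pool.Agent.Lib.PrimeGap.Short

/-!
# There is a prime in `(x, x + ε x / log x]` for all large `x`
-/

set_option autoImplicit false

open Filter Topology Set

namespace Pool.Agent.Lib.PrimeGap

theorem pow_exp_small (k : ℕ) {c η : ℝ} (hc : 0 < c) (hη : 0 < η) :
    ∀ᶠ r : ℝ in atTop, r ^ k * Real.exp (-(c * r)) ≤ η := by
  have h := (isLittleO_pow_exp_pos_mul_atTop k hc).bound hη
  filter_upwards [h, eventually_ge_atTop 0] with r hr hr0
  rw [Real.norm_of_nonneg (by positivity), Real.norm_of_nonneg (Real.exp_pos _).le] at hr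
  rw [Real.exp_neg]
  rw [← div_eq_mul_inv, div_le_iff₀ (Real.exp_pos _)]
  exact hr

theorem eventually_small (C ε : ℝ) (hε : 0 < ε) : ∀ᶠ r : ℝ in atTop,
    C * r ^ (3 / 4 : ℝ) + Real.exp (-(ε ^ 2 * r ^ 2 / 32)) * (144 * r ^ 6 * (1 + 2 * r ^ 2)) +
      32 * r ^ 6 * Real.exp (-(r ^ 2 / 2)) < Real.exp (-4) * r := by
  have hη : 0 < Real.exp (-4) / 4 := by positivity
  have h1 : ∀ᶠ r : ℝ in atTop, C * r ^ (3 / 4 : ℝ) ≤ Real.exp (-4) / 4 * r := by
    have h := (tendsto_rpow_neg_atTop (y := 1 / 4) (by norm_num)).const_mul C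
    rw [mul_zero] at h
    filter_upwards [h.eventually_le_const hη, eventually_gt_atTop 0] with r hr hr0
    have e : r ^ (3 / 4 : ℝ) = r ^ (-(1 / 4) : ℝ) * r := by
      nth_rewrite 3 [← Real.rpow_one r]
      rw [← Real.rpow_add hr0]
      norm_num
    rw [e, ← mul_assoc]
    exact mul_le_mul_of_nonneg_right hr hr0.le
  have h2 := pow_exp_small 8 (c := ε ^ 2 / 32) (η := Real.exp (-4) / 4 / 432) (by positivity)
    (by positivity)
  have h3 := pow_exp_small 6 (c := 1 / 2) (η := Real.exp (-4) / 4 / 32) (by positivity)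
    (by positivity)
  filter_upwards [h1, h2, h3, eventually_ge_atTop 1] with r h1 h2 h3 hr
  have hr0 : 0 < r := by linarith
  have hr2 : r ≤ r ^ 2 := by nlinarith
  have e2 : Real.exp (-(ε ^ 2 * r ^ 2 / 32)) * (144 * r ^ 6 * (1 + 2 * r ^ 2)) ≤
      Real.exp (-4) / 4 * r := by
    have h4 : Real.exp (-(ε ^ 2 * r ^ 2 / 32)) ≤ Real.exp (-(ε ^ 2 / 32 * r)) := by
      apply Real.exp_le_exp.2
      have : ε ^ 2 / 32 * r ≤ ε ^ 2 / 32 * r ^ 2 := by gcongr
      linarith
    have h5 : 144 * r ^ 6 * (1 + 2 * r ^ 2) ≤ 432 * r ^ 8 := by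
      have h6 : 1 + 2 * r ^ 2 ≤ 3 * r ^ 2 := by nlinarith
      calc 144 * r ^ 6 * (1 + 2 * r ^ 2) ≤ 144 * r ^ 6 * (3 * r ^ 2) := by gcongr
        _ = _ := by ring
    calc _ ≤ Real.exp (-(ε ^ 2 / 32 * r)) * (432 * r ^ 8) := by gcongr
      _ = 432 * (r ^ 8 * Real.exp (-(ε ^ 2 / 32 * r))) := by ring
      _ ≤ 432 * (Real.exp (-4) / 4 / 432) := by gcongr
      _ = Real.exp (-4) / 4 * 1 := by ring
      _ ≤ _ := by gcongr
  have e3 : 32 * r ^ 6 * Real.exp (-(r ^ 2 / 2)) ≤ Real.exp (-4) / 4 * r := by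
    have h4 : Real.exp (-(r ^ 2 / 2)) ≤ Real.exp (-(1 / 2 * r)) := by
      apply Real.exp_le_exp.2
      linarith
    calc _ ≤ 32 * r ^ 6 * Real.exp (-(1 / 2 * r)) := by gcongr
      _ = 32 * (r ^ 6 * Real.exp (-(1 / 2 * r))) := by ring
      _ ≤ 32 * (Real.exp (-4) / 4 / 32) := by gcongr
      _ = Real.exp (-4) / 4 * 1 := by ring
      _ ≤ _ := by gcongr
  have h7 : 0 < Real.exp (-4) * r := by positivity
  linarith

/-- **Primes in short intervals.** For every `ε > 0` and every large `x` there is a prime in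
`(x, x + ε x / log x]`. -/
theorem exists_prime_short {ε : ℝ} (hε : 0 < ε) : ∀ᶠ x : ℝ in atTop,
    ∃ p : ℕ, p.Prime ∧ x < p ∧ (p : ℝ) ≤ x + ε * x / Real.log x := by
  obtain ⟨C, hC0, hC⟩ := no_primes
  set e := min ε 1 with he
  have he0 : 0 < e := lt_min hε one_pos
  have he1 : e ≤ 1 := min_le_right _ _
  have hr : Tendsto (fun x : ℝ => Real.sqrt (Real.log x)) atTop atTop :=
    (Real.tendsto_sqrt_atTop).comp Real.tendsto_log_atTop
  filter_upwards [hr.eventually (eventually_small C e he0), hr.eventually_ge_atTop (4 / e),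
    eventually_gt_atTop 1, Real.tendsto_log_atTop.eventually_ge_atTop 1] with x h1 h2 hx hlog
  set y := Real.log x with hy
  have hy0 : 0 < y := by linarith
  have hyr : Real.sqrt y ^ 2 = y := Real.sq_sqrt hy0.le
  by_contra hcon
  push Not at hcon
  have h3 := hC e (Real.sqrt y) he0 he1 h2 (by
    rw [hyr]
    intro p hp h4 h5
    have hp0 : (0 : ℝ) < p := by exact_mod_cast hp.pos
    have hx0 : 0 < x := by linarith
    have h6 : x < p := by
      rw [hy] at h4
      exact (Real.log_lt_log_iff hx0 hp0).1 h4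
    have h7 := hcon p hp h6
    have h8 : (p : ℝ) ≤ Real.exp (y + e / (2 * y)) := by
      rwa [← Real.log_le_iff_le_exp hp0]
    rw [Real.exp_add, hy, Real.exp_log hx0, ← hy] at h8
    have hd0 : 0 < e / (2 * y) := by positivity
    have hd1 : e / (2 * y) ≤ 1 / 2 := by
      rw [div_le_div_iff₀ (by positivity) (by norm_num)]
      linarith
    have h9 : Real.exp (e / (2 * y)) ≤ 1 + 2 * (e / (2 * y)) := by
      have h10 := Real.exp_bound_div_one_sub_of_interval hd0.le (by linarith)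
      refine h10.trans ?_
      rw [div_le_iff₀ (by linarith)]
      nlinarith
    have h11 : (p : ℝ) ≤ x + ε * x / y := by
      calc (p : ℝ) ≤ x * Real.exp (e / (2 * y)) := h8
        _ ≤ x * (1 + 2 * (e / (2 * y))) := by gcongr
        _ = x + e * x / y := by field_simp
        _ ≤ x + ε * x / y := by
          gcongr
          exact min_le_left _ _
    linarith)
  linarith

end Pool.Agent.Lib.PrimeGap
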