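import Pool.Agent.Lib.PrimeGap.ZetaLower

/-!
# Bound of the second derivative of `-ζ'/ζ - ζ` on the right of the line `Re s = 1`
-/

set_option autoImplicit false

open Complex Filter Topology Set

namespace Pool.Agent.Lib.PrimeGap

/-- the entire function `(s - 1) ζ(s)` -/
noncomputable def Zs : ℂ → ℂ := DirichletCharacter.LFunctionTrivChar₁ 1

theorem trivChar_eq : DirichletCharacter.LFunctionTrivChar 1 = riemannZeta := by
  unfold DirichletCharacter.LFunctionTrivChar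
  exact DirichletCharacter.LFunction_modOne_eq

theorem Zs_one : Zs 1 = 1 := by
  unfold Zs
  simp

theorem Zs_of_ne {s : ℂ} (hs : s ≠ 1) : Zs s = (s - 1) * riemannZeta s := by
  unfold Zs DirichletCharacter.LFunctionTrivChar₁
  rw [Function.update_of_ne hs, trivChar_eq]

theorem differentiable_Zs : Differentiable ℂ Zs :=
  DirichletCharacter.differentiable_LFunctionTrivChar₁ 1

theorem deriv_Zs_of_ne {s : ℂ} (hs : s ≠ 1) :
    deriv Zs s = (s - 1) * deriv riemannZeta s + riemannZeta s := by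
  have h := DirichletCharacter.deriv_LFunctionTrivChar₁_apply_of_ne_one 1 hs
  rw [trivChar_eq] at h
  exact h

theorem Zs_ne_zero {s : ℂ} (hs : 1 ≤ s.re) : Zs s ≠ 0 := by
  by_cases h : s = 1
  · rw [h, Zs_one]; exact one_ne_zero
  · rw [Zs_of_ne h]
    exact mul_ne_zero (sub_ne_zero.2 h) (riemannZeta_ne_zero_of_one_le_re hs)

/-- the function `-ζ'/ζ - ζ`, continued to `s = 1` -/
noncomputable def F2 (s : ℂ) : ℂ := -deriv Zs s / Zs s - dslope Zs 1 s

theorem F2_of_ne {s : ℂ} (hs : s ≠ 1) (hz : riemannZeta s ≠ 0) :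
    F2 s = -deriv riemannZeta s / riemannZeta s - riemannZeta s := by
  have hs' : s - 1 ≠ 0 := sub_ne_zero.2 hs
  unfold F2
  rw [dslope_of_ne _ hs, slope_def_field, Zs_one, deriv_Zs_of_ne hs, Zs_of_ne hs]
  field_simp
  ring

theorem differentiable_dslope_Zs : Differentiable ℂ (dslope Zs 1) := by
  rw [← differentiableOn_univ, Complex.differentiableOn_dslope univ_mem]
  exact differentiable_Zs.differentiableOn

theorem analyticAt_F2 {s : ℂ} (hs : Zs s ≠ 0) : AnalyticAt ℂ F2 s := by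
  unfold F2
  have h1 : AnalyticAt ℂ Zs s := differentiable_Zs.analyticAt s
  exact (h1.deriv.neg.div h1 hs).sub (differentiable_dslope_Zs.analyticAt s)

theorem isOpen_Zs : IsOpen {s : ℂ | Zs s ≠ 0} :=
  isOpen_ne_fun differentiable_Zs.continuous continuous_const

theorem continuousOn_F2_deriv : ContinuousOn (iteratedDeriv 2 F2) {s : ℂ | Zs s ≠ 0} := by
  have h : AnalyticOnNhd ℂ F2 {s : ℂ | Zs s ≠ 0} := fun s hs => analyticAt_F2 hs
  have h2 := h.iterated_deriv 2
  rw [iteratedDeriv_eq_iterate]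
  exact h2.continuousOn

/-- bound on compact sets -/
theorem F2_deriv_bounded (T : ℝ) : ∃ C : ℝ, ∀ s : ℂ, 1 ≤ s.re → s.re ≤ 2 → |s.im| ≤ T →
    ‖iteratedDeriv 2 F2 s‖ ≤ C := by
  have hK : IsCompact (Icc (1 : ℝ) 2 ×ℂ Icc (-T) T) := isCompact_Icc.reProdIm isCompact_Icc
  have hc : ContinuousOn (iteratedDeriv 2 F2) (Icc (1 : ℝ) 2 ×ℂ Icc (-T) T) := by
    apply continuousOn_F2_deriv.mono
    intro s hs
    exact Zs_ne_zero hs.1.1
  obtain ⟨C, hC⟩ := hK.exists_bound_of_continuousOn hc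
  refine ⟨C, fun s h1 h2 h3 => hC s ⟨⟨h1, h2⟩, ?_⟩⟩
  exact abs_le.1 h3

theorem log_pow_le {t : ℝ} (ht : 1 ≤ t) : Real.log t ^ 27 ≤ 108 ^ 27 * t ^ (1 / 4 : ℝ) := by
  have h := Real.log_le_rpow_div (x := t) (by linarith) (ε := 1 / 108) (by norm_num)
  have h0 : 0 ≤ Real.log t := Real.log_nonneg ht
  have h2 : Real.log t ≤ 108 * t ^ (1 / 108 : ℝ) := by
    calc _ ≤ _ := h
      _ = _ := by ring
  calc Real.log t ^ 27 ≤ (108 * t ^ (1 / 108 : ℝ)) ^ 27 := pow_le_pow_left₀ h0 h2 27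
    _ = 108 ^ 27 * t ^ (1 / 4 : ℝ) := by
      rw [mul_pow, ← Real.rpow_natCast (t ^ (1 / 108 : ℝ)), ← Real.rpow_mul (by linarith)]
      norm_num

/-- bound for large imaginary part -/
theorem F2_deriv_large : ∃ C : ℝ, ∀ s : ℂ, 1 < s.re → s.re ≤ 2 → 3 ≤ |s.im| →
    ‖iteratedDeriv 2 F2 s‖ ≤ C * |s.im| ^ (1 / 4 : ℝ) := by
  refine ⟨2 * (2 / kap + 34) / (kap / 4) ^ 2 * 108 ^ 27, ?_⟩
  intro s hs1 hs2 hs3
  have hk := kap_pos
  have hkap1 : kap ≤ 1 / 8 := by unfold kap; norm_num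
  set L := Real.log |s.im| with hL
  have hL1 : 1 ≤ L := one_le_log hs3
  have hL0 : 0 < L := by linarith
  have hr0 : 0 < kap / 4 / L ^ 9 := by positivity
  have hsub : Metric.closedBall s (kap / 4 / L ^ 9) ⊆ Metric.ball s (kap / (2 * L ^ 9)) := by
    apply Metric.closedBall_subset_ball
    rw [div_div]
    apply div_lt_div_of_pos_left hk (by positivity)
    have : 0 < L ^ 9 := by positivity
    linarith
  have hr4 : kap / (2 * L ^ 9) ≤ 1 / (4 * L) := by
    rw [div_le_div_iff₀ (by positivity) (by positivity)]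
    have h1 : L ≤ L ^ 9 := le_self_pow₀ hL1 (by norm_num)
    nlinarith
  have hr2 : 1 / (4 * L) ≤ 1 / (2 * L) := by
    apply one_div_le_one_div_of_le (by positivity)
    linarith
  have hr1 : 1 / (2 * L) ≤ 1 := by
    rw [div_le_one (by positivity)]; linarith
  have hne : ∀ w ∈ Metric.ball s (kap / (2 * L ^ 9)), w ≠ 1 := fun w hw =>
    ball_ne_one hs3 (Metric.ball_subset_ball (hr4.trans (hr2.trans hr1)) hw)
  have hz : ∀ w ∈ Metric.ball s (kap / (2 * L ^ 9)), riemannZeta w ≠ 0 := by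
    intro w hw h
    have h1 := ball_lower hs1 hs2 hs3 hw
    rw [h, norm_zero] at h1
    have h2 : 0 < 136 * kap / L ^ 7 := by positivity
    rw [← hL] at h1
    linarith
  have hF : ∀ w ∈ Metric.ball s (kap / (2 * L ^ 9)), ‖F2 w‖ ≤ (2 / kap + 34) * L ^ 9 := by
    intro w hw
    rw [F2_of_ne (hne w hw) (hz w hw)]
    have h1 := ball_lower hs1 hs2 hs3 hw
    have h2 := zeta_deriv_le hs1 hs2 hs3 (Metric.ball_subset_ball hr4 hw)
    have h3 := zeta_upper hs1 hs2 hs3 (Metric.ball_subset_ball (hr4.trans hr2) hw)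
    rw [← hL] at h1 h2 h3
    have h4 : ‖-deriv riemannZeta w / riemannZeta w‖ ≤ 2 / kap * L ^ 9 := by
      rw [norm_div, norm_neg]
      have hp : 0 < 136 * kap / L ^ 7 := by positivity
      calc _ ≤ 272 * L ^ 2 / (136 * kap / L ^ 7) := by gcongr
        _ = 2 / kap * L ^ 9 := by
          field_simp
          norm_num
    have h5 : 34 * L ≤ 34 * L ^ 9 := by
      have := le_self_pow₀ hL1 (n := 9) (by norm_num)
      linarith
    calc _ ≤ _ := norm_sub_le _ _
      _ ≤ 2 / kap * L ^ 9 + 34 * L ^ 9 := by linarith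
      _ = _ := by ring
  have hd : DiffContOnCl ℂ F2 (Metric.ball s (kap / 4 / L ^ 9)) := by
    apply DifferentiableOn.diffContOnCl
    rw [closure_ball _ hr0.ne']
    intro w hw
    have hw' := hsub hw
    have h1 : Zs w ≠ 0 := by
      rw [Zs_of_ne (hne w hw')]
      exact mul_ne_zero (sub_ne_zero.2 (hne w hw')) (hz w hw')
    exact (analyticAt_F2 h1).differentiableAt.differentiableWithinAt
  have h := Complex.norm_iteratedDeriv_le_of_forall_mem_sphere_norm_le 2 hr0 hd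
    (fun w hw => hF w (hsub (Metric.sphere_subset_closedBall hw)))
  refine h.trans ?_
  have e : (Nat.factorial 2 : ℝ) * ((2 / kap + 34) * L ^ 9) / (kap / 4 / L ^ 9) ^ 2 =
      2 * (2 / kap + 34) / (kap / 4) ^ 2 * L ^ 27 := by
    rw [div_pow, ← pow_mul]
    simp only [Nat.factorial]
    push_cast
    field_simp
  rw [e, mul_assoc (2 * (2 / kap + 34) / (kap / 4) ^ 2)]
  exact mul_le_mul_of_nonneg_left (log_pow_le (by linarith)) (by positivity)

theorem F2_deriv_le : ∃ C : ℝ, 0 < C ∧ ∀ s : ℂ, 1 < s.re → s.re ≤ 2 →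
    ‖iteratedDeriv 2 F2 s‖ ≤ C * (1 + |s.im|) ^ (1 / 4 : ℝ) := by
  obtain ⟨C1, h1⟩ := F2_deriv_bounded 3
  obtain ⟨C2, h2⟩ := F2_deriv_large
  refine ⟨max 1 (max C1 C2), by positivity, fun s hs1 hs2 => ?_⟩
  have hp : 1 ≤ (1 + |s.im|) ^ (1 / 4 : ℝ) :=
    Real.one_le_rpow (by linarith [abs_nonneg s.im]) (by norm_num)
  have hm : 0 ≤ max 1 (max C1 C2) := by positivity
  rcases le_total |s.im| 3 with h | h
  · calc _ ≤ C1 := h1 s hs1.le hs2 h
      _ ≤ max 1 (max C1 C2) * 1 := by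
        rw [mul_one]; exact (le_max_left _ _).trans (le_max_right _ _)
      _ ≤ _ := mul_le_mul_of_nonneg_left hp hm
  · calc _ ≤ C2 * |s.im| ^ (1 / 4 : ℝ) := h2 s hs1 hs2 h
      _ ≤ max 1 (max C1 C2) * |s.im| ^ (1 / 4 : ℝ) :=
        mul_le_mul_of_nonneg_right ((le_max_right _ _).trans (le_max_right _ _)) (by positivity)
      _ ≤ _ := mul_le_mul_of_nonneg_left
        (Real.rpow_le_rpow (abs_nonneg _) (by linarith) (by norm_num)) hm

end Pool.Agent.Lib.PrimeGap
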