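import Pool.Agent.Lib.PrimeGap.DerivBound

/-!
# Gaussian weights on the primes
-/

set_option autoImplicit false

open Complex Filter Topology Set MeasureTheory

namespace Pool.Agent.Lib.PrimeGap

/-- the coefficients `(Λ(n) - 1) (log n) ^ 2` -/
noncomputable def cD (n : ℕ) : ℝ := (ArithmeticFunction.vonMangoldt n - 1) * Real.log n ^ 2

/-- the function `Λ - 1` -/
noncomputable def fL (n : ℕ) : ℂ := (ArithmeticFunction.vonMangoldt n : ℂ) - 1

theorem fL_summable {s : ℂ} (hs : 1 < s.re) : LSeriesSummable fL s :=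
  (ArithmeticFunction.LSeriesSummable_vonMangoldt hs).sub (LSeriesSummable_one_iff.2 hs)

theorem fL_LSeries {s : ℂ} (hs : 1 < s.re) : LSeries fL s = F2 s := by
  have h1 : LSeries fL s = LSeries (fun n => (ArithmeticFunction.vonMangoldt n : ℂ)) s -
      LSeries 1 s := by
    rw [← LSeries_sub (ArithmeticFunction.LSeriesSummable_vonMangoldt hs)
      (LSeriesSummable_one_iff.2 hs)]
    rfl
  rw [h1, ArithmeticFunction.LSeries_vonMangoldt_eq_deriv_riemannZeta_div hs,
    LSeries_one_eq_riemannZeta hs, F2_of_ne]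
  · rintro rfl
    simp at hs
  · exact riemannZeta_ne_zero_of_one_le_re hs.le

theorem fL_abscissa : LSeries.abscissaOfAbsConv fL ≤ 1 := by
  have := LSeries.abscissaOfAbsConv_le_of_forall_lt_LSeriesSummable (f := fL) (x := 1)
    (fun y hy => fL_summable (by simpa using hy))
  exact_mod_cast this

theorem logMul_two (n : ℕ) : LSeries.logMul^[2] fL n = (cD n : ℂ) := by
  simp only [Function.iterate_succ, Function.iterate_zero, Function.comp_apply, id,
    LSeries.logMul, cD, fL]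
  push_cast
  rw [← natCast_log]
  ring

theorem cD_zero : cD 0 = 0 := by simp [cD]

theorem cD_summable {s : ℂ} (hs : 1 < s.re) :
    Summable fun n : ℕ => (cD n : ℂ) * (n : ℂ) ^ (-s) := by
  have h : LSeriesSummable (LSeries.logMul^[2] fL) s := by
    apply LSeriesSummable_of_abscissaOfAbsConv_lt_re
    rw [LSeries.absicssaOfAbsConv_logPowMul]
    refine lt_of_le_of_lt fL_abscissa ?_
    exact_mod_cast hs
  refine h.congr fun n => ?_
  rw [LSeries.term_def₀ (by rw [logMul_two, cD_zero]; simp), logMul_two]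

theorem cD_tsum {s : ℂ} (hs : 1 < s.re) :
    ∑' n : ℕ, (cD n : ℂ) * (n : ℂ) ^ (-s) = iteratedDeriv 2 F2 s := by
  have h1 : iteratedDeriv 2 F2 s = iteratedDeriv 2 (LSeries fL) s := by
    apply Filter.EventuallyEq.iteratedDeriv_eq
    have h2 : ∀ᶠ w in 𝓝 s, 1 < w.re :=
      continuous_re.continuousAt.eventually (lt_mem_nhds hs)
    filter_upwards [h2] with w hw
    exact (fL_LSeries hw).symm
  rw [h1, LSeries_iteratedDeriv 2 (lt_of_le_of_lt fL_abscissa (by exact_mod_cast hs)), neg_one_sq,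
    one_mul]
  apply tsum_congr
  intro n
  rw [LSeries.term_def₀ (by rw [logMul_two, cD_zero]; simp), logMul_two]

/-- the Fourier transform of the Gaussian -/
theorem gauss_fourier {l : ℝ} (hl : 0 < l) (u : ℝ) :
    ∫ t : ℝ, (Real.exp (-(t ^ 2 / (2 * l ^ 2))) : ℂ) * cexp (I * u * t) =
      ((l * Real.sqrt (2 * Real.pi) * Real.exp (-(l ^ 2 * u ^ 2 / 2)) : ℝ) : ℂ) := by
  have hb : (0 : ℝ) < ((1 / (2 * l ^ 2) : ℝ) : ℂ).re := by
    rw [ofReal_re]; positivity
  have h := fourierIntegral_gaussian hb (u : ℂ)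
  have e1 : ∀ t : ℝ, cexp (I * u * t) * cexp (-((1 / (2 * l ^ 2) : ℝ) : ℂ) * t ^ 2) =
      (Real.exp (-(t ^ 2 / (2 * l ^ 2))) : ℂ) * cexp (I * u * t) := by
    intro t
    rw [mul_comm, ofReal_exp]
    congr 2
    push_cast
    field_simp
  simp only [e1] at h
  rw [h]
  have hl0 : (l : ℂ) ≠ 0 := by exact_mod_cast hl.ne'
  have e2 : ((Real.pi : ℂ) / ((1 / (2 * l ^ 2) : ℝ) : ℂ)) ^ (1 / 2 : ℂ) =
      ((l * Real.sqrt (2 * Real.pi) : ℝ) : ℂ) := by
    have h3 : ((Real.pi : ℂ) / ((1 / (2 * l ^ 2) : ℝ) : ℂ)) =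
        ((2 * Real.pi * l ^ 2 : ℝ) : ℂ) := by
      push_cast
      field_simp
    have h4 : l * Real.sqrt (2 * Real.pi) = (2 * Real.pi * l ^ 2) ^ (1 / 2 : ℝ) := by
      rw [← Real.sqrt_eq_rpow, Real.sqrt_mul (x := 2 * Real.pi) (by positivity) (l ^ 2),
        Real.sqrt_sq hl.le, mul_comm]
    rw [h3, h4, ofReal_cpow (by positivity)]
    push_cast
    rfl
  rw [e2, ofReal_mul (l * Real.sqrt (2 * Real.pi)), ofReal_exp]
  congr 2
  push_cast
  field_simp
  ring

/-- the integrable majorant -/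
noncomputable def gM (v : ℝ) : ℝ := Real.exp (-(v ^ 2 / 2)) * (1 + |v|)

theorem gM_integrable : Integrable gM := by
  have h1 : Integrable fun v : ℝ => Real.exp (-(1 / 2) * v ^ 2) :=
    integrable_exp_neg_mul_sq (by norm_num)
  have h2 : Integrable fun v : ℝ => v * Real.exp (-(1 / 2) * v ^ 2) :=
    integrable_mul_exp_neg_mul_sq (by norm_num)
  have h3 := h1.add h2.norm
  refine h3.congr (Eventually.of_forall fun v => ?_)
  simp only [Pi.add_apply, norm_mul, Real.norm_eq_abs, gM]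
  rw [abs_of_pos (Real.exp_pos _)]
  have : -(v ^ 2 / 2) = -(1 / 2) * v ^ 2 := by ring
  rw [this]
  ring

theorem gM_nonneg (v : ℝ) : 0 ≤ gM v := by unfold gM; positivity

/-- The main bound of the Gaussian averages of `(Λ(n) - 1) (log n) ^ 2 n ^ (-σ)`. -/
theorem gauss_bound : ∃ C : ℝ, 0 < C ∧ ∀ σ l y : ℝ, 1 < σ → σ ≤ 2 → 1 ≤ l →
    |∑' n : ℕ, cD n * (n : ℝ) ^ (-σ) * Real.exp (-(l ^ 2 * (Real.log n - y) ^ 2 / 2))| ≤
      C * l ^ (1 / 4 : ℝ) := by
  obtain ⟨C, hC0, hC⟩ := F2_deriv_le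
  refine ⟨C * (1 + ∫ v, gM v), by
    have : 0 ≤ ∫ v, gM v := integral_nonneg fun v => gM_nonneg v
    positivity, ?_⟩
  intro σ l y hσ hσ2 hl
  have hl0 : 0 < l := by linarith
  -- the terms
  let F : ℕ → ℝ → ℂ := fun n t =>
    ((Real.exp (-(t ^ 2 / (2 * l ^ 2))) : ℂ) * cexp (I * ((y - Real.log n : ℝ) : ℂ) * t)) *
      ((cD n * (n : ℝ) ^ (-σ) : ℝ) : ℂ)
  have hexp_int : Integrable fun t : ℝ => Real.exp (-(t ^ 2 / (2 * l ^ 2))) := by
    have h := integrable_exp_neg_mul_sq (b := 1 / (2 * l ^ 2)) (by positivity)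
    refine h.congr (Eventually.of_forall fun t => ?_)
    simp only
    congr 1
    field_simp
  have hnormF : ∀ n t, ‖F n t‖ = Real.exp (-(t ^ 2 / (2 * l ^ 2))) *
      |cD n * (n : ℝ) ^ (-σ)| := by
    intro n t
    simp only [F, norm_mul, norm_real, Real.norm_eq_abs, abs_mul]
    rw [abs_of_pos (Real.exp_pos _)]
    have : I * ((y - Real.log n : ℝ) : ℂ) * t = (((y - Real.log n) * t : ℝ) : ℂ) * I := by
      push_cast; ring
    rw [this, norm_exp_ofReal_mul_I, mul_one]
  have hFint : ∀ n, Integrable (F n) := by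
    intro n
    have hcont : Continuous (F n) := by
      simp only [F]
      fun_prop
    refine Integrable.mono' (hexp_int.mul_const (|cD n * (n : ℝ) ^ (-σ)|))
      hcont.aestronglyMeasurable (Eventually.of_forall fun t => ?_)
    rw [hnormF]
  have hsum : Summable fun n : ℕ => |cD n * (n : ℝ) ^ (-σ)| := by
    have h := (cD_summable (s := (σ : ℂ)) (by simpa using hσ)).norm
    refine h.congr fun n => ?_
    rw [norm_mul, norm_real, abs_mul, Real.norm_eq_abs]
    congr 1
    have h2 : (n : ℂ) ^ (-(σ : ℂ)) = (((n : ℝ) ^ (-σ) : ℝ) : ℂ) := by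
      rw [ofReal_cpow (by positivity)]
      push_cast
      rfl
    rw [h2, norm_real, Real.norm_eq_abs]
  have hFsum : Summable fun n => ∫ t, ‖F n t‖ := by
    simp only [hnormF]
    simp only [integral_mul_const]
    exact hsum.mul_left _
  have h := hasSum_integral_of_summable_integral_norm hFint hFsum
  -- left side
  have e1 : ∀ n, ∫ t, F n t = ((l * Real.sqrt (2 * Real.pi) : ℝ) : ℂ) *
      ((cD n * (n : ℝ) ^ (-σ) * Real.exp (-(l ^ 2 * (Real.log n - y) ^ 2 / 2)) : ℝ) : ℂ) := by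
    intro n
    simp only [F]
    rw [integral_mul_const, gauss_fourier hl0]
    have : (y - Real.log n) ^ 2 = (Real.log n - y) ^ 2 := by ring
    rw [this]
    push_cast
    ring
  -- right side
  have e2 : ∀ t : ℝ, ∑' n, F n t = (Real.exp (-(t ^ 2 / (2 * l ^ 2))) : ℂ) *
      cexp (I * y * t) * iteratedDeriv 2 F2 (σ + t * I) := by
    intro t
    rw [← cD_tsum (by simpa using hσ), ← tsum_mul_left]
    apply tsum_congr
    intro n
    simp only [F]
    rcases Nat.eq_zero_or_pos n with rfl | hn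
    · simp [cD_zero]
    · have hn0 : (n : ℂ) ≠ 0 := by exact_mod_cast hn.ne'
      have h3 : (n : ℂ) ^ (-((σ : ℂ) + t * I)) =
          (((n : ℝ) ^ (-σ) : ℝ) : ℂ) * cexp (-(I * Real.log n * t)) := by
        rw [neg_add, cpow_add _ _ hn0, ofReal_cpow (by positivity)]
        push_cast
        congr 1
        rw [cpow_def_of_ne_zero hn0]
        congr 1
        ring
      rw [h3]
      have h4 : cexp (I * ((y - Real.log n : ℝ) : ℂ) * t) =
          cexp (I * y * t) * cexp (-(I * Real.log n * t)) := by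
        rw [← Complex.exp_add]
        congr 1
        push_cast
        ring
      rw [h4]
      push_cast
      ring
  simp only [e1, e2] at h
  have hs := h.tsum_eq
  rw [tsum_mul_left, ← ofReal_tsum] at hs
  set S := ∑' n : ℕ, cD n * (n : ℝ) ^ (-σ) * Real.exp (-(l ^ 2 * (Real.log n - y) ^ 2 / 2))
    with hS
  have h5 : l * Real.sqrt (2 * Real.pi) * |S| ≤ ∫ t : ℝ, C * l ^ (1 / 4 : ℝ) * gM (t / l) := by
    have h6 : l * Real.sqrt (2 * Real.pi) * |S| = ‖((l * Real.sqrt (2 * Real.pi) : ℝ) : ℂ) *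
        (S : ℂ)‖ := by
      rw [norm_mul, norm_real, norm_real, Real.norm_eq_abs, Real.norm_eq_abs,
        abs_of_nonneg (a := l * Real.sqrt (2 * Real.pi)) (by positivity)]
    rw [h6, hs]
    have hint : Integrable fun t : ℝ => C * l ^ (1 / 4 : ℝ) * gM (t / l) :=
      (gM_integrable.comp_div hl0.ne').const_mul _
    refine norm_integral_le_of_norm_le hint (Eventually.of_forall fun t => ?_)
    rw [norm_mul, norm_mul]
    have h7 : ‖cexp (I * y * t)‖ = 1 := by
      have : I * (y : ℂ) * t = ((y * t : ℝ) : ℂ) * I := by push_cast; ring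
      rw [this, norm_exp_ofReal_mul_I]
    rw [h7, mul_one, norm_real, Real.norm_eq_abs, abs_of_pos (Real.exp_pos _)]
    have h8 := hC (σ + t * I) (by simpa using hσ) (by simpa using hσ2)
    have h9 : ((σ : ℂ) + t * I).im = t := by simp
    rw [h9] at h8
    have h10 : (1 + |t|) ^ (1 / 4 : ℝ) ≤ l ^ (1 / 4 : ℝ) * (1 + |t / l|) := by
      have h11 : 1 + |t| ≤ l * (1 + |t / l|) := by
        rw [abs_div, abs_of_pos hl0, mul_add, mul_div_cancel₀ _ hl0.ne']
        linarith
      have h12 : 1 ≤ 1 + |t / l| := by linarith [abs_nonneg (t / l)]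
      calc (1 + |t|) ^ (1 / 4 : ℝ) ≤ (l * (1 + |t / l|)) ^ (1 / 4 : ℝ) :=
            Real.rpow_le_rpow (by positivity) h11 (by norm_num)
        _ = l ^ (1 / 4 : ℝ) * (1 + |t / l|) ^ (1 / 4 : ℝ) :=
            Real.mul_rpow hl0.le (by positivity)
        _ ≤ l ^ (1 / 4 : ℝ) * (1 + |t / l|) ^ (1 : ℝ) := by
            apply mul_le_mul_of_nonneg_left _ (by positivity)
            exact Real.rpow_le_rpow_of_exponent_le h12 (by norm_num)
        _ = _ := by rw [Real.rpow_one]
    have h13 : gM (t / l) = Real.exp (-(t ^ 2 / (2 * l ^ 2))) * (1 + |t / l|) := by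
      unfold gM
      congr 2
      rw [div_pow]
      field_simp
    rw [h13]
    calc _ ≤ Real.exp (-(t ^ 2 / (2 * l ^ 2))) * (C * (1 + |t|) ^ (1 / 4 : ℝ)) :=
          mul_le_mul_of_nonneg_left h8 (Real.exp_pos _).le
      _ ≤ Real.exp (-(t ^ 2 / (2 * l ^ 2))) * (C * (l ^ (1 / 4 : ℝ) * (1 + |t / l|))) := by
          gcongr
      _ = _ := by ring
  rw [integral_const_mul, Measure.integral_comp_div, smul_eq_mul, abs_of_pos hl0] at h5
  have h14 : 1 ≤ Real.sqrt (2 * Real.pi) := by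
    rw [Real.one_le_sqrt]
    have := Real.pi_gt_three
    linarith
  have h15 : 0 ≤ ∫ v, gM v := integral_nonneg fun v => gM_nonneg v
  have h16 : l * |S| ≤ l * (C * (1 + ∫ v, gM v) * l ^ (1 / 4 : ℝ)) := by
    calc l * |S| = l * 1 * |S| := by ring
      _ ≤ l * Real.sqrt (2 * Real.pi) * |S| := by gcongr
      _ ≤ _ := h5
      _ = l * (C * (∫ v, gM v) * l ^ (1 / 4 : ℝ)) := by ring
      _ ≤ l * (C * (1 + ∫ v, gM v) * l ^ (1 / 4 : ℝ)) := by
        gcongr
        linarith
  exact le_of_mul_le_mul_left h16 hl0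

end Pool.Agent.Lib.PrimeGap
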