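import Pool.Agent.Lib.PrimeGap.GaussId

/-!
# Primes in short intervals
-/

set_option autoImplicit false

open Filter Topology Set

namespace Pool.Agent.Lib.PrimeGap

/-- bound of the coefficients -/
theorem cD_abs_le {y : ℝ} (hy : 1 ≤ y) {n : ℕ} (hn : 1 ≤ n) :
    |cD n| ≤ 144 * y ^ 3 * (n : ℝ) ^ (1 / (2 * y)) := by
  have hn1 : (1 : ℝ) ≤ n := by exact_mod_cast hn
  have hn0 : (0 : ℝ) < n := by linarith
  set u := Real.log n with hu
  have hu0 : 0 ≤ u := Real.log_nonneg hn1
  have hL0 : 0 ≤ ArithmeticFunction.vonMangoldt n := ArithmeticFunction.vonMangoldt_nonneg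
  have hL1 : ArithmeticFunction.vonMangoldt n ≤ u := ArithmeticFunction.vonMangoldt_le_log
  have h1 : |cD n| ≤ (1 + u) ^ 3 := by
    unfold cD
    rw [abs_mul, abs_of_nonneg (a := Real.log n ^ 2) (by positivity), ← hu]
    have h2 : |ArithmeticFunction.vonMangoldt n - 1| ≤ 1 + u := by
      rw [abs_le]; constructor <;> linarith
    calc _ ≤ (1 + u) * u ^ 2 := by gcongr
      _ ≤ (1 + u) * (1 + u) ^ 2 := by gcongr; linarith
      _ = _ := by ring
  have h3 : (1 + u) ^ 3 ≤ 48 * y ^ 3 * Real.exp ((1 + u) / (2 * y)) := by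
    have h4 := Real.pow_div_factorial_le_exp ((1 + u) / (2 * y)) (by positivity) 3
    have h5 : (1 + u) ^ 3 = 48 * y ^ 3 * (((1 + u) / (2 * y)) ^ 3 / (Nat.factorial 3 : ℝ)) := by
      simp only [Nat.factorial]
      push_cast
      field_simp
      norm_num
    rw [h5]
    gcongr
  have h6 : Real.exp ((1 + u) / (2 * y)) ≤ 3 * (n : ℝ) ^ (1 / (2 * y)) := by
    rw [Real.rpow_def_of_pos hn0, add_div, Real.exp_add, ← hu]
    have h7 : Real.exp (1 / (2 * y)) ≤ 3 := by
      have : 1 / (2 * y) ≤ 1 := by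
        rw [div_le_one (by positivity)]; linarith
      have h8 := Real.exp_le_exp.2 this
      have := Real.exp_one_lt_d9
      linarith
    rw [mul_one_div]
    gcongr
  calc |cD n| ≤ (1 + u) ^ 3 := h1
    _ ≤ 48 * y ^ 3 * Real.exp ((1 + u) / (2 * y)) := h3
    _ ≤ 48 * y ^ 3 * (3 * (n : ℝ) ^ (1 / (2 * y))) := by gcongr
    _ = _ := by ring

/-- the total mass -/
theorem mass_le {y : ℝ} (hy : 1 ≤ y) :
    (Summable fun n : ℕ => |cD n| * (n : ℝ) ^ (-(1 + 1 / y))) ∧
    ∑' n : ℕ, |cD n| * (n : ℝ) ^ (-(1 + 1 / y)) ≤ 144 * y ^ 3 * (1 + 2 * y) := by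
  have hy0 : 0 < y := by linarith
  have hs : Summable fun n : ℕ => 144 * y ^ 3 * (1 / ((n : ℝ) ^ (1 + 1 / (2 * y)))) :=
    (Real.summable_one_div_nat_rpow.2 (by
      have : 0 < 1 / (2 * y) := by positivity
      linarith)).mul_left _
  have hle : ∀ n : ℕ, |cD n| * (n : ℝ) ^ (-(1 + 1 / y)) ≤
      144 * y ^ 3 * (1 / ((n : ℝ) ^ (1 + 1 / (2 * y)))) := by
    intro n
    rcases Nat.eq_zero_or_pos n with rfl | hn
    · rw [cD_zero]; simp; positivity
    · have hn0 : (0 : ℝ) < n := by exact_mod_cast hn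
      calc |cD n| * (n : ℝ) ^ (-(1 + 1 / y)) ≤
            144 * y ^ 3 * (n : ℝ) ^ (1 / (2 * y)) * (n : ℝ) ^ (-(1 + 1 / y)) := by
            gcongr
            exact cD_abs_le hy hn
        _ = 144 * y ^ 3 * (n : ℝ) ^ (-(1 + 1 / (2 * y))) := by
            rw [mul_assoc, ← Real.rpow_add hn0]
            congr 2
            field_simp
            ring
        _ = _ := by
            simp only [Real.rpow_neg hn0.le, one_div]
  have hsum : Summable fun n : ℕ => |cD n| * (n : ℝ) ^ (-(1 + 1 / y)) :=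
    Summable.of_nonneg_of_le (fun n => by positivity) hle hs
  refine ⟨hsum, ?_⟩
  have hs2 : Summable fun n : ℕ => |cD (n + 1)| * ((n + 1 : ℕ) : ℝ) ^ (-(1 + 1 / y)) :=
    (summable_nat_add_iff 1).2 hsum
  rw [hsum.tsum_eq_zero_add, cD_zero, abs_zero, zero_mul, zero_add]
  have h2 : ∑' n : ℕ, |cD (n + 1)| * ((n + 1 : ℕ) : ℝ) ^ (-(1 + 1 / y)) ≤
      ∑' n : ℕ, 144 * y ^ 3 * (1 / ((n + 1 : ℝ) ^ (1 + 1 / (2 * y)))) := by
    apply hs2.tsum_le_tsum
    · intro n
      have := hle (n + 1)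
      push_cast at this ⊢
      exact this
    · have := (summable_nat_add_iff 1).2 hs
      refine this.congr fun n => ?_
      push_cast
      rfl
  refine h2.trans ?_
  rw [tsum_mul_left]
  have h3 := tsum_rpow_le (σ := 1 + 1 / (2 * y)) (by
      have : 0 < 1 / (2 * y) := by positivity
      linarith)
  have h4 : 1 + 1 / (1 + 1 / (2 * y) - 1) = 1 + 2 * y := by
    rw [add_sub_cancel_left, one_div_one_div]
  rw [h4] at h3
  gcongr

/-- the inequality which holds when there is no prime in the window -/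
theorem no_primes : ∃ C : ℝ, 0 < C ∧ ∀ ε r : ℝ, 0 < ε → ε ≤ 1 → 4 / ε ≤ r →
    (∀ p : ℕ, p.Prime → r ^ 2 < Real.log p → ¬ Real.log p ≤ r ^ 2 + ε / (2 * r ^ 2)) →
    Real.exp (-4) * r ≤ C * r ^ (3 / 4 : ℝ) +
      Real.exp (-(ε ^ 2 * r ^ 2 / 32)) * (144 * r ^ 6 * (1 + 2 * r ^ 2)) +
      32 * r ^ 6 * Real.exp (-(r ^ 2 / 2)) := by
  obtain ⟨C, hC0, hC⟩ := gauss_bound
  refine ⟨C, hC0, ?_⟩
  intro ε r hε hε1 hr hno
  have hr4 : 4 ≤ r := by
    refine le_trans ?_ hr
    rw [le_div_iff₀ hε]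
    linarith
  have hr0 : 0 < r := by linarith
  have hrε : 4 ≤ ε * r := by
    rw [div_le_iff₀ hε] at hr
    linarith
  set y := r ^ 2 with hy
  have hy16 : 16 ≤ y := by rw [hy]; nlinarith
  have hy0 : 0 < y := by linarith
  set δ := ε / (2 * y) with hδ
  have hδ0 : 0 < δ := by positivity
  have hδ1 : δ ≤ 1 / 2 := by
    rw [hδ, div_le_div_iff₀ (by positivity) (by norm_num)]
    linarith
  set y0 := y + δ / 2 with hy0'
  set l := r ^ 3 with hl
  have hl1 : 1 ≤ l := one_le_pow₀ (by linarith)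
  have hl0 : 0 < l := by linarith
  have hlδ : 1 / l ≤ δ / 2 := by
    rw [hδ, hy, hl, div_div, div_le_div_iff₀ (by positivity) (by positivity)]
    nlinarith [pow_pos hr0 2]
  have hl_inv1 : 1 / l ≤ 1 := by rw [div_le_one hl0]; exact hl1
  have hσ1 : 1 < 1 + 1 / y := by
    have : 0 < 1 / y := by positivity
    linarith
  have hσ2 : 1 + 1 / y ≤ 2 := by
    have : 1 / y ≤ 1 := by rw [div_le_one hy0]; linarith
    linarith
  have hmain := hC (1 + 1 / y) l y0 hσ1 hσ2 hl1
  have hlr : l ^ (1 / 4 : ℝ) = r ^ (3 / 4 : ℝ) := by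
    rw [hl, ← Real.rpow_natCast, ← Real.rpow_mul hr0.le]
    norm_num
  rw [hlr] at hmain
  -- the window
  set X := Real.exp (y + δ) with hX
  have hX1 : 1 ≤ X := by rw [hX]; exact Real.one_le_exp (by linarith)
  let W : Finset ℕ := (Finset.Ioc 0 ⌊X⌋₊).filter fun n => y < Real.log n
  have hW : ∀ n : ℕ, 1 ≤ n → (n ∈ W ↔ y < Real.log n ∧ Real.log n ≤ y + δ) := by
    intro n hn
    have hn0 : (0 : ℝ) < n := by exact_mod_cast hn
    simp only [W, Finset.mem_filter, Finset.mem_Ioc]
    rw [Nat.le_floor_iff (by linarith), hX, ← Real.log_le_iff_le_exp hn0]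
    constructor
    · rintro ⟨⟨-, h2⟩, h3⟩; exact ⟨h3, h2⟩
    · rintro ⟨h2, h3⟩; exact ⟨⟨by omega, h3⟩, h2⟩
  have hW1 : ∀ n ∈ W, 1 ≤ n := by
    intro n hn
    simp only [W, Finset.mem_filter, Finset.mem_Ioc] at hn
    omega
  -- abbreviations
  let g : ℕ → ℝ := fun n => Real.exp (-(l ^ 2 * (Real.log n - y0) ^ 2 / 2))
  let h : ℕ → ℝ := fun n => |cD n| * (n : ℝ) ^ (-(1 + 1 / y))
  let f : ℕ → ℝ := fun n => cD n * (n : ℝ) ^ (-(1 + 1 / y)) * g n
  obtain ⟨hmass1, hmass2⟩ := mass_le (y := y) (by linarith)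
  have hg1 : ∀ n, g n ≤ 1 := by
    intro n
    simp only [g]
    rw [Real.exp_le_one_iff]
    have : 0 ≤ l ^ 2 * (Real.log n - y0) ^ 2 / 2 := by positivity
    linarith
  have hg0 : ∀ n, 0 < g n := fun n => Real.exp_pos _
  have hfh : ∀ n, ‖f n‖ ≤ h n := by
    intro n
    simp only [f, h, Real.norm_eq_abs, abs_mul]
    rw [abs_of_pos (hg0 n), abs_of_nonneg (a := (n : ℝ) ^ (-(1 + 1 / y))) (by positivity)]
    calc |cD n| * (n : ℝ) ^ (-(1 + 1 / y)) * g n ≤ |cD n| * (n : ℝ) ^ (-(1 + 1 / y)) * 1 := by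
          gcongr
          exact hg1 n
      _ = _ := mul_one _
  have hfsum : Summable f := Summable.of_norm_bounded hmass1 hfh
  set E := Real.exp (-(ε ^ 2 * y / 32)) with hE
  have hoff : ∀ n, n ∉ W → f n ≤ E * h n := by
    intro n hn
    rcases Nat.eq_zero_or_pos n with rfl | hn1
    · simp only [f, h, cD_zero]; simp
    · have hn' : ¬ (y < Real.log n ∧ Real.log n ≤ y + δ) := fun hh => hn ((hW n hn1).2 hh)
      have hd : (δ / 2) ^ 2 ≤ (Real.log n - y0) ^ 2 := by
        rw [← sq_abs (Real.log n - y0)]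
        apply pow_le_pow_left₀ (by positivity)
        by_cases hc : y < Real.log n
        · have h2 : y + δ < Real.log n := by
            by_contra hcon
            push Not at hcon
            exact hn' ⟨hc, hcon⟩
          refine le_trans ?_ (le_abs_self _)
          rw [hy0']; linarith
        · push Not at hc
          refine le_trans ?_ (neg_le_abs _)
          rw [hy0']; linarith
      have hgE : g n ≤ E := by
        simp only [g, hE]
        apply Real.exp_le_exp.2
        have h3 : ε ^ 2 * y / 32 = l ^ 2 * (δ / 2) ^ 2 / 2 := by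
          rw [hδ, hl, hy]
          field_simp
          norm_num
        rw [h3]
        have : l ^ 2 * (δ / 2) ^ 2 ≤ l ^ 2 * (Real.log n - y0) ^ 2 := by gcongr
        linarith
      calc f n ≤ |f n| := le_abs_self _
        _ = h n * g n := by
          simp only [f, h, abs_mul]
          rw [abs_of_pos (hg0 n), abs_of_nonneg (a := (n : ℝ) ^ (-(1 + 1 / y))) (by positivity)]
        _ ≤ h n * E := by
          apply mul_le_mul_of_nonneg_left hgE
          simp only [h]; positivity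
        _ = _ := mul_comm _ _
  have hh0 : ∀ n, 0 ≤ h n := fun n => by simp only [h]; positivity
  have hE0 : 0 < E := Real.exp_pos _
  -- upper bound of the sum
  have hup : ∑' n, f n ≤ ∑ n ∈ W, f n + E * (144 * y ^ 3 * (1 + 2 * y)) := by
    have h1 : ∀ n, f n ≤ (if n ∈ W then f n else 0) + E * h n := by
      intro n
      split_ifs with hn
      · have := mul_nonneg hE0.le (hh0 n)
        linarith
      · rw [zero_add]; exact hoff n hn
    have hs1 : Summable fun n => if n ∈ W then f n else 0 :=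
      summable_of_ne_finset_zero (s := W) fun n hn => if_neg hn
    have hs2 : Summable fun n => E * h n := hmass1.mul_left E
    have h2 := hfsum.tsum_le_tsum h1 (hs1.add hs2)
    rw [hs1.tsum_add hs2, tsum_mul_left, tsum_eq_sum (s := W) (fun n hn => if_neg hn)] at h2
    have h3 : ∑ n ∈ W, (if n ∈ W then f n else 0) = ∑ n ∈ W, f n :=
      Finset.sum_congr rfl fun n hn => if_pos hn
    rw [h3] at h2
    have h4 : E * ∑' n, h n ≤ E * (144 * y ^ 3 * (1 + 2 * y)) := by gcongr
    linarith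
  -- the terms of the window
  have hWlog : ∀ n ∈ W, y < Real.log n ∧ Real.log n ≤ 2 * y ∧
      (n : ℝ) ^ (-(1 + 1 / y)) ≤ Real.exp (-y) := by
    intro n hn
    have hn1 := hW1 n hn
    have hn0 : (0 : ℝ) < n := by exact_mod_cast hn1
    obtain ⟨h1, h2⟩ := (hW n hn1).1 hn
    refine ⟨h1, by linarith, ?_⟩
    rw [Real.rpow_def_of_pos hn0]
    apply Real.exp_le_exp.2
    have h3 : 0 < 1 / y := by positivity
    nlinarith
  let P : ℝ := ∑ n ∈ W, ArithmeticFunction.vonMangoldt n *
    (Real.log n ^ 2 * (n : ℝ) ^ (-(1 + 1 / y)) * g n)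
  let Q : ℝ := ∑ n ∈ W, Real.log n ^ 2 * (n : ℝ) ^ (-(1 + 1 / y)) * g n
  have hPQ : ∑ n ∈ W, f n = P - Q := by
    simp only [P, Q, f, cD]
    rw [← Finset.sum_sub_distrib]
    apply Finset.sum_congr rfl
    intro n _
    ring
  have hP : P ≤ 32 * y ^ 3 * Real.exp (-(y / 2)) := by
    have h1 : P ≤ ∑ n ∈ W, ArithmeticFunction.vonMangoldt n * (4 * y ^ 2 * Real.exp (-y)) := by
      apply Finset.sum_le_sum
      intro n hn
      obtain ⟨h2, h3, h4⟩ := hWlog n hn
      have h5 : Real.log n ^ 2 ≤ (2 * y) ^ 2 := pow_le_pow_left₀ (by linarith) h3 2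
      apply mul_le_mul_of_nonneg_left _ ArithmeticFunction.vonMangoldt_nonneg
      calc Real.log n ^ 2 * (n : ℝ) ^ (-(1 + 1 / y)) * g n ≤
            (2 * y) ^ 2 * Real.exp (-y) * 1 := by
            gcongr
            exact hg1 n
        _ = _ := by ring
    rw [← Finset.sum_mul] at h1
    have h6 : ∑ n ∈ W, ArithmeticFunction.vonMangoldt n ≤ Chebyshev.psi X - Chebyshev.theta X := by
      rw [Chebyshev.psi_sub_theta_eq_sum_not_prime]
      apply Finset.sum_le_sum_of_subset_of_nonneg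
      · intro n hn
        have hn1 := hW1 n hn
        have h7 := (hW n hn1).1 hn
        simp only [W, Finset.mem_filter] at hn
        rw [Finset.mem_filter]
        refine ⟨hn.1, fun hp => hno n hp h7.1 h7.2⟩
      · intro n _ _
        exact ArithmeticFunction.vonMangoldt_nonneg
    have h8 := Chebyshev.psi_sub_theta_le hX1
    have h9 : Real.log X = y + δ := by rw [hX, Real.log_exp]
    have h10 : Real.sqrt X ≤ 2 * Real.exp (y / 2) := by
      rw [hX, Real.sqrt_le_left (by positivity), mul_pow, ← Real.exp_nat_mul]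
      push_cast
      have h11 : (2 : ℝ) * (y / 2) = y := by ring
      rw [h11, Real.exp_add]
      have h12 : Real.exp δ ≤ 4 := by
        have h13 : Real.exp δ ≤ Real.exp 1 := Real.exp_le_exp.2 (by linarith)
        have := Real.exp_one_lt_d9
        linarith
      nlinarith [Real.exp_pos y]
    have h14 : ∑ n ∈ W, ArithmeticFunction.vonMangoldt n ≤ 8 * y * Real.exp (y / 2) := by
      calc _ ≤ _ := h6
        _ ≤ _ := h8
        _ ≤ 2 * (2 * Real.exp (y / 2)) * (2 * y) := by
          rw [h9]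
          gcongr
          linarith
        _ = _ := by ring
    have h15 : Real.exp (-y) * Real.exp (y / 2) = Real.exp (-(y / 2)) := by
      rw [← Real.exp_add]; congr 1; ring
    calc P ≤ _ := h1
      _ ≤ 8 * y * Real.exp (y / 2) * (4 * y ^ 2 * Real.exp (-y)) := by gcongr
      _ = 32 * y ^ 3 * (Real.exp (-y) * Real.exp (y / 2)) := by ring
      _ = _ := by rw [h15]
  have hQ : Real.exp (-4) * r ≤ Q := by
    -- the inner window
    set a := Real.exp (y0 - 1 / l) with ha
    set b := Real.exp (y0 + 1 / l) with hb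
    let V : Finset ℕ := Finset.Ioc ⌊a⌋₊ ⌊b⌋₊
    have hV : ∀ n ∈ V, 1 ≤ n ∧ y0 - 1 / l < Real.log n ∧ Real.log n ≤ y0 + 1 / l := by
      intro n hn
      simp only [V, Finset.mem_Ioc] at hn
      have h1 : a < n := Nat.lt_of_floor_lt hn.1
      have h2 : (n : ℝ) ≤ b := (Nat.le_floor_iff (Real.exp_pos _).le).1 hn.2
      have hn0 : (0 : ℝ) < n := (Real.exp_pos _).trans h1
      refine ⟨by exact_mod_cast hn0, ?_, ?_⟩
      · rwa [Real.lt_log_iff_exp_lt hn0]
      · rwa [Real.log_le_iff_le_exp hn0]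
    have hVW : V ⊆ W := by
      intro n hn
      obtain ⟨h1, h2, h3⟩ := hV n hn
      rw [hW n h1]
      rw [hy0'] at h2 h3
      constructor <;> linarith
    have hcard : Real.exp y0 / l ≤ V.card := by
      have h1 : (⌊b⌋₊ : ℝ) - ⌊a⌋₊ ≤ V.card := by
        simp only [V, Nat.card_Ioc]
        have : (⌊b⌋₊ : ℝ) ≤ ((⌊b⌋₊ - ⌊a⌋₊ : ℕ) : ℝ) + ⌊a⌋₊ := by
          have h0 : ⌊b⌋₊ ≤ (⌊b⌋₊ - ⌊a⌋₊) + ⌊a⌋₊ := by omega
          exact_mod_cast h0
        linarith
      have h2 : (⌊a⌋₊ : ℝ) ≤ a := Nat.floor_le (Real.exp_pos _).le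
      have h3 : b < ⌊b⌋₊ + 1 := Nat.lt_floor_add_one b
      have h4 : Real.exp y0 * (2 / l) ≤ b - a := by
        have h5 : 1 / l ≤ Real.sinh (1 / l) := Real.self_le_sinh_iff.2 (by positivity)
        rw [Real.sinh_eq] at h5
        have h5' : b - a = Real.exp y0 * (Real.exp (1 / l) - Real.exp (-(1 / l))) := by
          rw [hb, ha, mul_sub, ← Real.exp_add, ← Real.exp_add, sub_eq_add_neg y0]
        rw [h5']
        apply mul_le_mul_of_nonneg_left _ (Real.exp_pos _).le
        have : 2 / l = 2 * (1 / l) := by ring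
        linarith
      have h6 : 1 ≤ Real.exp y0 / l := by
        rw [one_le_div hl0]
        have h7 : y ^ 2 ≤ Real.exp y0 := by
          have h8 := Real.pow_div_factorial_le_exp y hy0.le 3
          have h9 : y ^ 2 ≤ y ^ 3 / (Nat.factorial 3 : ℝ) := by
            simp only [Nat.factorial]
            push_cast
            rw [le_div_iff₀ (by norm_num)]
            nlinarith [pow_pos hy0 2]
          have h10 : Real.exp y ≤ Real.exp y0 := Real.exp_le_exp.2 (by rw [hy0']; linarith)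
          linarith
        have h11 : l ≤ y ^ 2 := by
          rw [hl, hy, ← pow_mul]
          exact pow_le_pow_right₀ (by linarith) (by norm_num)
        linarith
      have h12 : Real.exp y0 * (2 / l) = Real.exp y0 / l + Real.exp y0 / l := by ring
      linarith
    have hterm : ∀ n ∈ V, y ^ 2 * Real.exp (-y0 - 4) ≤
        Real.log n ^ 2 * (n : ℝ) ^ (-(1 + 1 / y)) * g n := by
      intro n hn
      obtain ⟨h1, h2, h3⟩ := hV n hn
      have hn0 : (0 : ℝ) < n := by exact_mod_cast h1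
      have hlog : y < Real.log n := ((hW n h1).1 (hVW hn)).1
      have hlog2 : Real.log n ≤ 2 * y := (hWlog n (hVW hn)).2.1
      have h4 : y ^ 2 ≤ Real.log n ^ 2 := pow_le_pow_left₀ hy0.le hlog.le 2
      have h5 : Real.exp (-y0 - 3) ≤ (n : ℝ) ^ (-(1 + 1 / y)) := by
        rw [Real.rpow_def_of_pos hn0]
        apply Real.exp_le_exp.2
        have h6 : Real.log n * (1 / y) ≤ 2 := by
          rw [mul_one_div, div_le_iff₀ hy0]
          exact hlog2
        have h7 : Real.log n * (-(1 + 1 / y)) = -Real.log n - Real.log n * (1 / y) := by ring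
        rw [h7]
        linarith
      have h8 : Real.exp (-1) ≤ g n := by
        simp only [g]
        apply Real.exp_le_exp.2
        have h9 : |Real.log n - y0| ≤ 1 / l := by
          rw [abs_le]; constructor <;> linarith
        have h10 : (Real.log n - y0) ^ 2 ≤ (1 / l) ^ 2 := by
          rw [← sq_abs]
          exact pow_le_pow_left₀ (abs_nonneg _) h9 2
        have h11 : l ^ 2 * (Real.log n - y0) ^ 2 ≤ l ^ 2 * (1 / l) ^ 2 := by gcongr
        have h12 : l ^ 2 * (1 / l) ^ 2 = 1 := by field_simp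
        linarith
      calc y ^ 2 * Real.exp (-y0 - 4) = y ^ 2 * Real.exp (-y0 - 3) * Real.exp (-1) := by
            rw [mul_assoc, ← Real.exp_add]; congr 2; ring
        _ ≤ _ := by gcongr
    calc Real.exp (-4) * r = (Real.exp y0 / l) * (y ^ 2 * Real.exp (-y0 - 4)) := by
          have e1 : Real.exp (-y0 - 4) = Real.exp (-4) / Real.exp y0 := by
            rw [← Real.exp_sub]; congr 1; ring
          rw [e1, hl, hy]
          have := Real.exp_pos y0
          field_simp
      _ ≤ V.card * (y ^ 2 * Real.exp (-y0 - 4)) := by gcongr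
      _ = ∑ n ∈ V, (y ^ 2 * Real.exp (-y0 - 4)) := by rw [Finset.sum_const, nsmul_eq_mul]
      _ ≤ ∑ n ∈ V, Real.log n ^ 2 * (n : ℝ) ^ (-(1 + 1 / y)) * g n := Finset.sum_le_sum hterm
      _ ≤ Q := by
        apply Finset.sum_le_sum_of_subset_of_nonneg hVW
        intro n _ _
        have := (hg0 n).le
        positivity
  have h20 : -(C * r ^ (3 / 4 : ℝ)) ≤ ∑' n, f n := (abs_le.1 hmain).1
  have h21 : y ^ 3 = r ^ 6 := by rw [hy]; ring
  rw [h21] at hup hP
  linarith

end Pool.Agent.Lib.PrimeGap
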