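import Pool.Agent.Lib.PrimeGap.ZetaUpper

/-!
# Lower bounds for the zeta function on the right of the line `Re s = 1`
-/

set_option autoImplicit false

open Complex Filter Topology Set

namespace Pool.Agent.Lib.PrimeGap

theorem tsum_rpow_le {σ : ℝ} (hσ : 1 < σ) :
    ∑' n : ℕ, 1 / (n + 1 : ℝ) ^ σ ≤ 1 + 1 / (σ - 1) := by
  have h := ZetaAsymptotics.zeta_limit_aux1 hσ
  have h2 : 0 ≤ ZetaAsymptotics.termTSum σ :=
    tsum_nonneg fun n => ZetaAsymptotics.term_nonneg _ _
  nlinarith

theorem zeta_norm_le {s : ℂ} (hs : 1 < s.re) : ‖riemannZeta s‖ ≤ 1 + 1 / (s.re - 1) := by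
  rw [zeta_eq_tsum_one_div_nat_add_one_cpow hs]
  refine le_trans ?_ (tsum_rpow_le hs)
  have hsum : Summable fun n : ℕ => 1 / (n + 1 : ℝ) ^ s.re := by
    have h := (summable_nat_add_iff (f := fun n : ℕ => 1 / (n : ℝ) ^ s.re) 1).2
      (Real.summable_one_div_nat_rpow.2 hs)
    refine h.congr fun n => ?_
    push_cast
    rfl
  refine tsum_of_norm_bounded hsum.hasSum fun n => ?_
  rw [norm_div, norm_one]
  have h : ((n : ℂ) + 1) = ((n + 1 : ℕ) : ℂ) := by push_cast; rfl
  rw [h, norm_natCast_cpow_of_pos (Nat.succ_pos n)]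
  push_cast
  exact le_rfl

/-- the inequality from `3 + 4 cos + cos 2` -/
theorem zeta_product_ge {x : ℝ} (hx : 0 < x) (y : ℝ) :
    1 ≤ ‖riemannZeta (1 + x)‖ ^ 3 * ‖riemannZeta (1 + x + I * y)‖ ^ 4 *
      ‖riemannZeta (1 + x + 2 * I * y)‖ := by
  have h := DirichletCharacter.norm_LSeries_product_ge_one (N := 1) 1 hx y
  have e1 : (1 : DirichletCharacter ℂ 1) ^ 2 = 1 := one_pow 2
  rw [e1, DirichletCharacter.LSeries_modOne_eq] at h
  rw [LSeries_one_eq_riemannZeta (by simp [hx]), LSeries_one_eq_riemannZeta (by simp [hx]),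
    LSeries_one_eq_riemannZeta (by simp [hx])] at h
  simpa [norm_mul, norm_pow] using h

/-- the constant of the lower bound -/
noncomputable def kap : ℝ := 1 / 544 ^ 5

theorem kap_pos : 0 < kap := by unfold kap; positivity

section

variable {s : ℂ} (hs1 : 1 < s.re) (hs2 : s.re ≤ 2) (hs3 : 3 ≤ |s.im|)

include hs3 in
theorem one_le_log : 1 ≤ Real.log |s.im| := by
  rw [Real.le_log_iff_exp_le (by linarith)]
  have := Real.exp_one_lt_d9
  linarith

include hs3 in
theorem ball_ne_one {w : ℂ} (hw : w ∈ Metric.ball s 1) : w ≠ 1 := by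
  rintro rfl
  rw [Metric.mem_ball, dist_eq_norm] at hw
  have h1 : |((1 : ℂ) - s).im| ≤ ‖(1 : ℂ) - s‖ := abs_im_le_norm _
  rw [sub_im, one_im, zero_sub, abs_neg] at h1
  linarith

include hs1 hs2 hs3 in
/-- bound of the derivative -/
theorem zeta_deriv_le {w : ℂ} (hw : w ∈ Metric.ball s (1 / (4 * Real.log |s.im|))) :
    ‖deriv riemannZeta w‖ ≤ 272 * Real.log |s.im| ^ 2 := by
  set L := Real.log |s.im| with hL
  have hL1 : 1 ≤ L := one_le_log hs3
  have hsub : Metric.closedBall w (1 / (8 * L)) ⊆ Metric.ball s (1 / (2 * L)) := by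
    intro z hz
    rw [Metric.mem_closedBall] at hz
    rw [Metric.mem_ball] at hw ⊢
    have h1 : dist z s ≤ dist z w + dist w s := dist_triangle _ _ _
    have h2 : 1 / (8 * L) + 1 / (4 * L) < 1 / (2 * L) := by
      rw [div_add_div _ _ (by positivity) (by positivity), div_lt_div_iff₀ (by positivity)
        (by positivity)]
      nlinarith [pow_pos (lt_of_lt_of_le one_pos hL1) 2, pow_pos (lt_of_lt_of_le one_pos hL1) 3]
    linarith
  have hne : ∀ z ∈ Metric.ball s (1 / (2 * L)), z ≠ 1 := fun z hz => ball_ne_one hs3 (by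
    have h2 : 1 / (2 * L) ≤ 1 := by
      rw [div_le_one (by positivity)]; linarith
    exact Metric.ball_subset_ball h2 hz)
  have hd : DiffContOnCl ℂ riemannZeta (Metric.ball w (1 / (8 * L))) := by
    apply DifferentiableOn.diffContOnCl
    rw [closure_ball _ (by positivity)]
    intro z hz
    exact (differentiableAt_riemannZeta (hne z (hsub hz))).differentiableWithinAt
  have h := Complex.norm_deriv_le_of_forall_mem_sphere_norm_le (c := w) (R := 1 / (8 * L))
    (C := 34 * L) (by positivity) hd (fun z hz =>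
      zeta_upper hs1 hs2 hs3 (hsub (Metric.sphere_subset_closedBall hz)))
  refine h.trans (le_of_eq ?_)
  field_simp
  norm_num

include hs1 hs2 hs3 in
/-- The lower bound `|ζ(s)| ≥ c (log t) ^ (-7)`. -/
theorem zeta_lower : 272 * kap / Real.log |s.im| ^ 7 ≤ ‖riemannZeta s‖ := by
  set L := Real.log |s.im| with hL
  have hL1 : 1 ≤ L := one_le_log hs3
  have hL0 : 0 < L := by linarith
  -- first the points with `Re s ≥ 1 + δ`
  have hmain : ∀ x : ℝ, kap / L ^ 9 ≤ x → x ≤ 1 →
      544 * kap / L ^ 7 ≤ ‖riemannZeta (1 + x + I * s.im)‖ := by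
    intro x hx hx1
    have hx0 : 0 < x := lt_of_lt_of_le (by have := kap_pos; positivity) hx
    have h1 := zeta_product_ge hx0 s.im
    have h2 : ‖riemannZeta (1 + x)‖ ≤ 2 / x := by
      have h := zeta_norm_le (s := 1 + x) (by simp [hx0])
      simp only [add_re, one_re, ofReal_re, add_sub_cancel_left] at h
      refine h.trans ?_
      have : 1 ≤ 1 / x := by rw [le_div_iff₀ hx0]; linarith
      have e : 2 / x = 1 / x + 1 / x := by ring
      linarith
    have h3 : ‖riemannZeta (1 + x + 2 * I * s.im)‖ ≤ 68 * L := by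
      have him : ((1 : ℂ) + x + 2 * I * s.im).im = 2 * s.im := by simp
      have hre : ((1 : ℂ) + x + 2 * I * s.im).re = 1 + x := by simp
      have h := zeta_upper (s := 1 + x + 2 * I * s.im) (by rw [hre]; linarith)
        (by rw [hre]; linarith) (by rw [him, abs_mul, abs_two]; linarith)
        (w := 1 + x + 2 * I * s.im) (by
          apply Metric.mem_ball_self
          have : 0 < Real.log |((1 : ℂ) + x + 2 * I * s.im).im| := by
            rw [him, abs_mul, abs_two]
            apply Real.log_pos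
            linarith
          positivity)
      rw [him, abs_mul, abs_two] at h
      refine h.trans ?_
      have h4 : Real.log (2 * |s.im|) ≤ 2 * L := by
        have : Real.log (2 * |s.im|) ≤ Real.log (|s.im| ^ 2) := by
          apply Real.log_le_log (by linarith)
          nlinarith
        rw [Real.log_pow] at this
        exact_mod_cast this
      linarith
    set z := ‖riemannZeta (1 + x + I * s.im)‖ with hz
    have hz0 : 0 ≤ z := norm_nonneg _
    have h5 : 1 ≤ (2 / x) ^ 3 * z ^ 4 * (68 * L) := by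
      refine h1.trans ?_
      gcongr
    have h6 : x ^ 3 ≤ 544 * L * z ^ 4 := by
      have e : (2 / x) ^ 3 * z ^ 4 * (68 * L) = 544 * L * z ^ 4 / x ^ 3 := by
        field_simp
        ring
      rw [e, le_div_iff₀ (by positivity)] at h5
      linarith
    have h7 : (kap / L ^ 9) ^ 3 ≤ 544 * L * z ^ 4 :=
      (pow_le_pow_left₀ (by have := kap_pos; positivity) hx 3).trans h6
    have h8 : (544 * kap / L ^ 7) ^ 4 ≤ z ^ 4 := by
      have e1 : (544 * kap / L ^ 7) ^ 4 * (544 * L) = (kap / L ^ 9) ^ 3 := by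
        have e2 : 544 ^ 5 * kap = 1 := by unfold kap; norm_num
        field_simp
        linear_combination kap ^ 3 * e2
      have h9 : (544 * kap / L ^ 7) ^ 4 * (544 * L) ≤ z ^ 4 * (544 * L) := by
        rw [e1]; linarith
      exact le_of_mul_le_mul_right h9 (by positivity)
    exact le_of_pow_le_pow_left₀ (by norm_num) hz0 h8
  have hk := kap_pos
  have hs : (1 : ℂ) + ((s.re - 1 : ℝ) : ℂ) + I * s.im = s := by
    apply Complex.ext <;> simp
  by_cases hcase : kap / L ^ 9 ≤ s.re - 1
  · have h := hmain (s.re - 1) hcase (by linarith)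
    rw [hs] at h
    refine le_trans ?_ h
    apply div_le_div_of_nonneg_right _ (by positivity)
    linarith
  · push Not at hcase
    set x := kap / L ^ 9 with hx
    have hx0 : 0 < x := by positivity
    have hkap1 : kap ≤ 1 / 8 := by unfold kap; norm_num
    have hxL : x < 1 / (4 * L) := by
      rw [hx, div_lt_div_iff₀ (by positivity) (by positivity)]
      have h1 : L ≤ L ^ 9 := le_self_pow₀ hL1 (by norm_num)
      nlinarith
    have hx1 : x ≤ 1 := by
      have : 1 / (4 * L) ≤ 1 := by
        rw [div_le_one (by positivity)]; linarith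
      linarith
    have h := hmain x le_rfl hx1
    have hdist : ‖(1 + x + I * s.im : ℂ) - s‖ ≤ x := by
      have e : (1 + x + I * s.im : ℂ) - s = ((x - (s.re - 1) : ℝ) : ℂ) := by
        apply Complex.ext
        · simp; ring
        · simp
      rw [e, Complex.norm_real, Real.norm_eq_abs, abs_of_pos (by linarith)]
      linarith
    have hmv := Convex.norm_image_sub_le_of_norm_deriv_le (f := riemannZeta)
      (C := 272 * L ^ 2) (s := Metric.ball s (1 / (4 * L))) (x := s)
      (y := 1 + x + I * s.im)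
      (fun w hw => differentiableAt_riemannZeta (ball_ne_one hs3 (by
        have h5 : 1 / (4 * L) ≤ 1 := by
          rw [div_le_one (by positivity)]; linarith
        exact Metric.ball_subset_ball h5 hw)))
      (fun w hw => zeta_deriv_le hs1 hs2 hs3 hw) (convex_ball _ _)
      (Metric.mem_ball_self (by positivity))
      (by rw [Metric.mem_ball, dist_eq_norm]; linarith)
    have h10 : ‖riemannZeta (1 + x + I * s.im)‖ ≤
        ‖riemannZeta s‖ + ‖riemannZeta (1 + x + I * s.im) - riemannZeta s‖ := by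
      have := norm_add_le (riemannZeta s) (riemannZeta (1 + x + I * s.im) - riemannZeta s)
      simpa using this
    have h11 : 272 * L ^ 2 * ‖(1 + x + I * s.im : ℂ) - s‖ ≤ 272 * kap / L ^ 7 := by
      calc 272 * L ^ 2 * ‖(1 + x + I * s.im : ℂ) - s‖ ≤ 272 * L ^ 2 * x := by gcongr
        _ = 272 * kap / L ^ 7 := by
          rw [hx]
          field_simp
    have e12 : 544 * kap / L ^ 7 = 272 * kap / L ^ 7 + 272 * kap / L ^ 7 := by ring
    linarith

include hs1 hs2 hs3 in
theorem ball_lower {w : ℂ} (hw : w ∈ Metric.ball s (kap / (2 * Real.log |s.im| ^ 9))) :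
    136 * kap / Real.log |s.im| ^ 7 ≤ ‖riemannZeta w‖ := by
  set L := Real.log |s.im| with hL
  have hL1 : 1 ≤ L := one_le_log hs3
  have hL0 : 0 < L := by linarith
  have hk := kap_pos
  have hkap1 : kap ≤ 1 / 8 := by unfold kap; norm_num
  have hr : kap / (2 * L ^ 9) ≤ 1 / (4 * L) := by
    rw [div_le_div_iff₀ (by positivity) (by positivity)]
    have h1 : L ≤ L ^ 9 := le_self_pow₀ hL1 (by norm_num)
    nlinarith
  have hmv := Convex.norm_image_sub_le_of_norm_deriv_le (f := riemannZeta)
      (C := 272 * L ^ 2) (s := Metric.ball s (1 / (4 * L))) (x := s) (y := w)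
      (fun w hw => differentiableAt_riemannZeta (ball_ne_one hs3 (by
        have h5 : 1 / (4 * L) ≤ 1 := by
          rw [div_le_one (by positivity)]; linarith
        exact Metric.ball_subset_ball h5 hw)))
      (fun w hw => zeta_deriv_le hs1 hs2 hs3 hw) (convex_ball _ _)
      (Metric.mem_ball_self (by positivity)) (Metric.ball_subset_ball hr hw)
  rw [Metric.mem_ball, dist_eq_norm] at hw
  have h10 : ‖riemannZeta s‖ ≤ ‖riemannZeta w‖ + ‖riemannZeta w - riemannZeta s‖ := by
    have := norm_sub_le (riemannZeta w) (riemannZeta w - riemannZeta s)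
    simpa using this
  have h11 : 272 * L ^ 2 * ‖w - s‖ ≤ 136 * kap / L ^ 7 := by
    calc 272 * L ^ 2 * ‖w - s‖ ≤ 272 * L ^ 2 * (kap / (2 * L ^ 9)) := by gcongr
      _ = 136 * kap / L ^ 7 := by
        field_simp
        norm_num
  have h12 := zeta_lower hs1 hs2 hs3
  rw [← hL] at h12
  have e12 : 272 * kap / L ^ 7 = 136 * kap / L ^ 7 + 136 * kap / L ^ 7 := by ring
  linarith

end

end Pool.Agent.Lib.PrimeGap
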