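import Mathlib

/-!
# Upper bounds for the zeta function near the line `Re s = 1`
-/

set_option autoImplicit false

open Complex Filter Topology Set

namespace Pool.Agent.Lib.PrimeGap

/-- the error term of the comparison of `(n+1)^{-w}` with an integral -/
noncomputable def zB (n : ℕ) (w : ℂ) : ℂ :=
  ((n + 1 : ℕ) : ℂ) ^ (-w) - (((n + 1 : ℕ) : ℂ) ^ (1 - w) - (n : ℂ) ^ (1 - w)) / (1 - w)

theorem zB_norm_le {n : ℕ} (hn : 1 ≤ n) {w : ℂ} (hw : 1 / 2 ≤ w.re) (hw1 : w ≠ 1) :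
    ‖zB n w‖ ≤ ‖w‖ * (n : ℝ) ^ (-(3 / 2 : ℝ)) := by
  have hn0 : (0 : ℝ) < n := by exact_mod_cast hn
  have hn1 : (1 : ℝ) ≤ n := by exact_mod_cast hn
  have hle : (n : ℝ) ≤ ((n + 1 : ℕ) : ℝ) := by push_cast; linarith
  have hw0 : -w ≠ 0 := by
    intro h
    rw [neg_eq_zero] at h
    rw [h, zero_re] at hw
    linarith
  -- integral representation
  have h1 : zB n w = ∫ u : ℝ in (n : ℝ)..((n + 1 : ℕ) : ℝ),
      ((((n + 1 : ℕ) : ℝ) : ℂ) ^ (-w) - (u : ℂ) ^ (-w)) := by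
    rw [intervalIntegral.integral_sub, intervalIntegral.integral_const, integral_cpow]
    · unfold zB
      have e1 : (((n + 1 : ℕ) : ℝ) - (n : ℝ)) = 1 := by push_cast; ring
      rw [e1, one_smul]
      have e2 : -w + 1 = 1 - w := by ring
      rw [e2]
      push_cast
      ring
    · right
      constructor
      · intro h
        apply hw1
        linear_combination -h
      · rw [uIcc_of_le hle]
        rintro ⟨h, -⟩
        linarith
    · exact intervalIntegrable_const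
    · apply ContinuousOn.intervalIntegrable
      intro u hu
      rw [uIcc_of_le hle] at hu
      have hu0 : (0 : ℝ) < u := lt_of_lt_of_le hn0 hu.1
      exact (hasDerivAt_ofReal_cpow_const hu0.ne' hw0).continuousAt.continuousWithinAt
  -- bound of the integrand
  have h2 : ∀ u ∈ Set.uIoc (n : ℝ) ((n + 1 : ℕ) : ℝ),
      ‖(((n + 1 : ℕ) : ℝ) : ℂ) ^ (-w) - (u : ℂ) ^ (-w)‖ ≤ ‖w‖ * (n : ℝ) ^ (-(3 / 2 : ℝ)) := by
    intro u hu
    rw [uIoc_of_le hle] at hu
    have hd : ∀ v ∈ Icc (n : ℝ) ((n + 1 : ℕ) : ℝ),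
        HasDerivWithinAt (fun v : ℝ => (v : ℂ) ^ (-w)) (-w * (v : ℂ) ^ (-w - 1))
          (Icc (n : ℝ) ((n + 1 : ℕ) : ℝ)) v := by
      intro v hv
      have hv0 : (0 : ℝ) < v := lt_of_lt_of_le hn0 hv.1
      exact (hasDerivAt_ofReal_cpow_const hv0.ne' hw0).hasDerivWithinAt
    have hb : ∀ v ∈ Icc (n : ℝ) ((n + 1 : ℕ) : ℝ),
        ‖-w * (v : ℂ) ^ (-w - 1)‖ ≤ ‖w‖ * (n : ℝ) ^ (-(3 / 2 : ℝ)) := by
      intro v hv
      have hv0 : (0 : ℝ) < v := lt_of_lt_of_le hn0 hv.1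
      rw [norm_mul, norm_neg, norm_cpow_eq_rpow_re_of_pos hv0]
      apply mul_le_mul_of_nonneg_left _ (norm_nonneg _)
      have e1 : (-w - 1).re ≤ -(3 / 2 : ℝ) := by
        simp only [sub_re, neg_re, one_re]; linarith
      calc v ^ (-w - 1).re ≤ v ^ (-(3 / 2 : ℝ)) :=
            Real.rpow_le_rpow_of_exponent_le (hn1.trans hv.1) e1
        _ ≤ (n : ℝ) ^ (-(3 / 2 : ℝ)) :=
            Real.rpow_le_rpow_of_nonpos hn0 hv.1 (by norm_num)
    have hmv := (convex_Icc (n : ℝ) ((n + 1 : ℕ) : ℝ)).norm_image_sub_le_of_norm_hasDerivWithin_le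
      hd hb (x := u) (y := ((n + 1 : ℕ) : ℝ)) ⟨hu.1.le, hu.2⟩ ⟨hle, le_rfl⟩
    refine hmv.trans ?_
    have e3 : ‖((n + 1 : ℕ) : ℝ) - u‖ ≤ 1 := by
      rw [Real.norm_eq_abs, abs_le]
      have := hu.1
      have := hu.2
      push_cast at *
      constructor <;> linarith
    calc _ ≤ ‖w‖ * (n : ℝ) ^ (-(3 / 2 : ℝ)) * 1 := by
          apply mul_le_mul_of_nonneg_left e3
          positivity
      _ = _ := mul_one _
  rw [h1]
  have h3 := intervalIntegral.norm_integral_le_of_norm_le_const h2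
  refine h3.trans ?_
  have e1 : |((n + 1 : ℕ) : ℝ) - (n : ℝ)| = 1 := by push_cast; simp
  rw [e1, mul_one]

theorem rpow_tel {n : ℕ} (hn : 1 ≤ n) :
    (n : ℝ) ^ (-(3 / 2 : ℝ)) ≤ 6 * (1 / Real.sqrt n - 1 / Real.sqrt ((n + 1 : ℕ) : ℝ)) := by
  have hn1 : (1 : ℝ) ≤ n := by exact_mod_cast hn
  set a := Real.sqrt n with ha
  set b := Real.sqrt ((n + 1 : ℕ) : ℝ) with hb
  have ha2 : a ^ 2 = n := Real.sq_sqrt (by positivity)
  have hb2 : b ^ 2 = n + 1 := by
    rw [hb, Real.sq_sqrt (by positivity)]; push_cast; ring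
  have ha1 : 1 ≤ a := by rw [ha]; exact Real.one_le_sqrt.2 hn1
  have hb0 : 0 < b := Real.sqrt_pos.2 (by positivity)
  have hab : b ≤ 3 / 2 * a := by nlinarith
  have h1 : (n : ℝ) ^ (-(3 / 2 : ℝ)) = 1 / a ^ 3 := by
    rw [Real.rpow_neg (by positivity), ← one_div]
    congr 1
    rw [ha, Real.sqrt_eq_rpow, ← Real.rpow_natCast, ← Real.rpow_mul (by positivity)]
    norm_num
  rw [h1]
  have ha0 : 0 < a := by linarith
  have h2 : 1 / a - 1 / b = 1 / (a * b * (a + b)) := by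
    field_simp
    nlinarith
  rw [h2, mul_one_div, div_le_div_iff₀ (by positivity) (by positivity)]
  have h3 : b * (a + b) ≤ 6 * a ^ 2 := by nlinarith
  nlinarith [mul_le_mul_of_nonneg_left h3 ha0.le]

theorem summable_tail (N : ℕ) : Summable fun k : ℕ => ((k + N : ℕ) : ℝ) ^ (-(3 / 2 : ℝ)) :=
  (summable_nat_add_iff (f := fun n : ℕ => (n : ℝ) ^ (-(3 / 2 : ℝ))) N).2
    (Real.summable_nat_rpow.2 (by norm_num))

theorem tsum_tail_le {N : ℕ} (hN : 1 ≤ N) :
    ∑' k : ℕ, ((k + N : ℕ) : ℝ) ^ (-(3 / 2 : ℝ)) ≤ 6 / Real.sqrt N := by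
  apply Real.tsum_le_of_sum_range_le
  · intro n; positivity
  · intro K
    have h : ∀ K : ℕ, ∑ k ∈ Finset.range K, ((k + N : ℕ) : ℝ) ^ (-(3 / 2 : ℝ)) ≤
        6 * (1 / Real.sqrt N - 1 / Real.sqrt ((K + N : ℕ) : ℝ)) := by
      intro K
      induction K with
      | zero => simp
      | succ K ih =>
        rw [Finset.sum_range_succ]
        have h2 := rpow_tel (n := K + N) (by omega)
        have e : K + N + 1 = K + 1 + N := by ring
        rw [e] at h2
        linarith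
    refine (h K).trans ?_
    have h3 : 0 ≤ 1 / Real.sqrt ((K + N : ℕ) : ℝ) := by positivity
    have h4 : 6 / Real.sqrt N = 6 * (1 / Real.sqrt N) := by ring
    rw [h4]
    linarith

/-- the approximation of `ζ` -/
noncomputable def zG (N : ℕ) (w : ℂ) : ℂ :=
  ∑ n ∈ Finset.range N, ((n + 1 : ℕ) : ℂ) ^ (-w) + (N : ℂ) ^ (1 - w) / (w - 1) +
    ∑' k : ℕ, zB (k + N) w

theorem zG_eq {N : ℕ} (hN : 1 ≤ N) {w : ℂ} (hw : 1 < w.re) : zG N w = riemannZeta w := by
  have hw1 : w ≠ 1 := by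
    rintro rfl
    simp at hw
  have hw1' : w - 1 ≠ 0 := sub_ne_zero.2 hw1
  have hw1'' : 1 - w ≠ 0 := sub_ne_zero.2 hw1.symm
  have hs1 : Summable fun n : ℕ => ((n + 1 : ℕ) : ℂ) ^ (-w) := by
    have h := (summable_nat_add_iff (f := fun n : ℕ => ((n : ℕ) : ℂ) ^ (-w)) 1).2 (by
      have h2 := Complex.summable_one_div_nat_cpow.2 hw
      refine h2.congr fun n => ?_
      rw [cpow_neg, one_div])
    exact h
  have hs2 : Summable fun k : ℕ => ((k + N + 1 : ℕ) : ℂ) ^ (-w) :=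
    (summable_nat_add_iff (f := fun n : ℕ => ((n + 1 : ℕ) : ℂ) ^ (-w)) N).2 hs1
  have hs3 : Summable fun k : ℕ => zB (k + N) w := by
    apply Summable.of_norm
    refine Summable.of_nonneg_of_le (fun _ => norm_nonneg _)
      (fun k => zB_norm_le (by omega) (by linarith) hw1) ((summable_tail N).mul_left ‖w‖)
  have hz : riemannZeta w = ∑ n ∈ Finset.range N, ((n + 1 : ℕ) : ℂ) ^ (-w) +
      ∑' k : ℕ, ((k + N + 1 : ℕ) : ℂ) ^ (-w) := by
    rw [zeta_eq_tsum_one_div_nat_add_one_cpow hw, hs1.sum_add_tsum_nat_add N]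
    apply tsum_congr
    intro n
    rw [cpow_neg, one_div]
    push_cast
    rfl
  -- the telescoping sum
  have hs4 : Summable fun k : ℕ =>
      (((k + N + 1 : ℕ) : ℂ) ^ (1 - w) - ((k + N : ℕ) : ℂ) ^ (1 - w)) / (1 - w) := by
    refine (hs2.sub hs3).congr fun k => ?_
    unfold zB
    ring
  have hs5 : Summable fun k : ℕ =>
      (((k + N + 1 : ℕ) : ℂ) ^ (1 - w) - ((k + N : ℕ) : ℂ) ^ (1 - w)) := by
    refine (hs4.mul_left (1 - w)).congr fun k => ?_
    field_simp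
  have ht : ∑' k : ℕ, (((k + N + 1 : ℕ) : ℂ) ^ (1 - w) - ((k + N : ℕ) : ℂ) ^ (1 - w)) =
      -(N : ℂ) ^ (1 - w) := by
    have h1 := hs5.hasSum.tendsto_sum_nat
    have h2 : ∀ K : ℕ, ∑ k ∈ Finset.range K,
        (((k + N + 1 : ℕ) : ℂ) ^ (1 - w) - ((k + N : ℕ) : ℂ) ^ (1 - w)) =
        ((K + N : ℕ) : ℂ) ^ (1 - w) - (N : ℂ) ^ (1 - w) := by
      intro K
      induction K with
      | zero => simp
      | succ K ih =>
        rw [Finset.sum_range_succ, ih]
        have e : K + N + 1 = K + 1 + N := by ring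
        rw [e]
        ring
    simp only [h2] at h1
    have h3 : Tendsto (fun K : ℕ => ((K + N : ℕ) : ℂ) ^ (1 - w) - (N : ℂ) ^ (1 - w)) atTop
        (𝓝 (0 - (N : ℂ) ^ (1 - w))) := by
      apply Tendsto.sub_const
      rw [tendsto_zero_iff_norm_tendsto_zero]
      have h4 : Tendsto (fun K : ℕ => ((K + N : ℕ) : ℝ) ^ (-(w.re - 1))) atTop (𝓝 0) :=
        (tendsto_rpow_neg_atTop (by linarith)).comp
          (tendsto_natCast_atTop_atTop.comp (tendsto_add_atTop_nat N))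
      refine h4.congr fun K => ?_
      rw [norm_natCast_cpow_of_pos (by omega)]
      congr 1
      simp
    have h5 := tendsto_nhds_unique h1 h3
    rw [h5, zero_sub]
  unfold zG
  rw [hz]
  have h6 : ∑' k : ℕ, zB (k + N) w = ∑' k : ℕ, ((k + N + 1 : ℕ) : ℂ) ^ (-w) -
      ∑' k : ℕ, (((k + N + 1 : ℕ) : ℂ) ^ (1 - w) - ((k + N : ℕ) : ℂ) ^ (1 - w)) / (1 - w) := by
    rw [← hs2.tsum_sub hs4]
    rfl
  rw [h6, tsum_div_const, ht]
  field_simp
  ring

theorem differentiableAt_cpow_neg {n : ℕ} (hn : n ≠ 0) (w : ℂ) :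
    DifferentiableAt ℂ (fun w : ℂ => (n : ℂ) ^ (-w)) w :=
  DifferentiableAt.const_cpow differentiableAt_id.neg (Or.inl (by exact_mod_cast hn))

theorem differentiableAt_cpow_one_sub {n : ℕ} (hn : n ≠ 0) (w : ℂ) :
    DifferentiableAt ℂ (fun w : ℂ => (n : ℂ) ^ (1 - w)) w :=
  DifferentiableAt.const_cpow (differentiableAt_const _ |>.sub differentiableAt_id)
    (Or.inl (by exact_mod_cast hn))

theorem differentiableAt_zB {n : ℕ} (hn : n ≠ 0) {w : ℂ} (hw : w ≠ 1) :
    DifferentiableAt ℂ (zB n) w := by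
  unfold zB
  refine (differentiableAt_cpow_neg (Nat.succ_ne_zero n) w).sub ?_
  refine DifferentiableAt.div ?_ ((differentiableAt_const _).sub differentiableAt_id)
    (sub_ne_zero.2 hw.symm)
  exact (differentiableAt_cpow_one_sub (Nat.succ_ne_zero n) w).sub
    (differentiableAt_cpow_one_sub hn w)

theorem differentiableOn_zG {N : ℕ} (hN : 1 ≤ N) {U : Set ℂ} (hU : IsOpen U) {C : ℝ}
    (hre : ∀ w ∈ U, 1 / 2 ≤ w.re) (h1 : ∀ w ∈ U, w ≠ 1) (hC : ∀ w ∈ U, ‖w‖ ≤ C) :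
    DifferentiableOn ℂ (zG N) U := by
  unfold zG
  refine (DifferentiableOn.add ?_ ?_).add ?_
  · apply DifferentiableOn.fun_sum
    intro n _ w _
    exact (differentiableAt_cpow_neg (Nat.succ_ne_zero n) w).differentiableWithinAt
  · intro w hw
    exact (((differentiableAt_cpow_one_sub (by omega) w).div
      (differentiableAt_id.sub (differentiableAt_const _))
      (sub_ne_zero.2 (h1 w hw)))).differentiableWithinAt
  · refine differentiableOn_tsum_of_summable_norm ((summable_tail N).mul_left C) ?_ hU ?_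
    · intro k w hw
      exact (differentiableAt_zB (by omega) (h1 w hw)).differentiableWithinAt
    · intro k w hw
      refine (zB_norm_le (by omega) (hre w hw) (h1 w hw)).trans ?_
      exact mul_le_mul_of_nonneg_right (hC w hw) (by positivity)

/-- The zeta function is at most `34 log t` in the ball of radius `1 / (2 log t)` around a point
of height `t` on the right of the line `Re = 1`. -/
theorem zeta_upper {s : ℂ} (hs1 : 1 < s.re) (hs2 : s.re ≤ 2) (hs3 : 3 ≤ |s.im|) {w : ℂ}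
    (hw : w ∈ Metric.ball s (1 / (2 * Real.log |s.im|))) :
    ‖riemannZeta w‖ ≤ 34 * Real.log |s.im| := by
  set t := |s.im| with ht
  set L := Real.log t with hL
  have hL1 : 1 ≤ L := by
    rw [hL, Real.le_log_iff_exp_le (by linarith)]
    have := Real.exp_one_lt_d9
    linarith
  have hr : 1 / (2 * L) ≤ 1 / 2 := by
    apply one_div_le_one_div_of_le (by norm_num)
    linarith
  have hr0 : 0 < 1 / (2 * L) := by positivity
  -- facts about points of the ball
  have hball : ∀ w ∈ Metric.ball s (1 / (2 * L)), 1 - 1 / (2 * L) ≤ w.re ∧ 5 / 2 ≤ |w.im| ∧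
      ‖w‖ ≤ 2 * t := by
    intro w hw
    rw [Metric.mem_ball, dist_eq_norm] at hw
    have h1 : |(w - s).re| ≤ ‖w - s‖ := abs_re_le_norm _
    have h2 : |(w - s).im| ≤ ‖w - s‖ := abs_im_le_norm _
    rw [sub_re] at h1
    rw [sub_im] at h2
    have h1' := abs_le.1 (h1.trans hw.le)
    have h2' : |w.im - s.im| ≤ 1 / 2 := (h2.trans hw.le).trans hr
    refine ⟨by linarith [h1'.1], ?_, ?_⟩
    · have h3 : |s.im| ≤ |w.im| + |w.im - s.im| := by
        have := abs_sub_abs_le_abs_sub s.im w.im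
        rw [abs_sub_comm s.im w.im] at this
        linarith
      linarith
    · have h3 : ‖w‖ ≤ ‖s‖ + ‖w - s‖ := by
        have := norm_add_le s (w - s)
        simpa using this
      have h4 : ‖s‖ ≤ |s.re| + |s.im| := norm_le_abs_re_add_abs_im s
      have h5 : |s.re| ≤ 2 := by rw [abs_of_pos (by linarith)]; exact hs2
      linarith
  have hne1 : ∀ w ∈ Metric.ball s (1 / (2 * L)), w ≠ 1 := by
    rintro w hw rfl
    have := (hball 1 hw).2.1
    simp at this
    linarith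
  have hre : ∀ w ∈ Metric.ball s (1 / (2 * L)), 1 / 2 ≤ w.re := by
    intro w hw
    have := (hball w hw).1
    linarith
  set N : ℕ := ⌈t⌉₊ ^ 2 with hN
  have hc1 : t ≤ (⌈t⌉₊ : ℝ) := Nat.le_ceil t
  have hc2 : (⌈t⌉₊ : ℝ) < t + 1 := Nat.ceil_lt_add_one (by linarith)
  have hN1 : 1 ≤ N := by
    have : (0 : ℝ) < ⌈t⌉₊ := by linarith
    have h0 : 0 < ⌈t⌉₊ := by exact_mod_cast this
    rw [hN]
    exact Nat.one_le_pow _ _ h0
  have hNt : t ^ 2 ≤ N := by
    rw [hN]; push_cast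
    exact pow_le_pow_left₀ (by linarith) hc1 2
  have hNt3 : (N : ℝ) ≤ t ^ 3 := by
    rw [hN]; push_cast
    have h1 : (⌈t⌉₊ : ℝ) ^ 2 ≤ (t + 1) ^ 2 := pow_le_pow_left₀ (by positivity) hc2.le 2
    nlinarith
  have hN0 : (0 : ℝ) < N := by exact_mod_cast hN1
  have hlogN : Real.log N ≤ 3 * L := by
    have h1 := Real.log_le_log hN0 hNt3
    rw [Real.log_pow] at h1
    simpa using h1
  -- the key power bound
  have hpow : ∀ n : ℕ, 1 ≤ n → n ≤ N → (n : ℝ) ^ (1 / (2 * L)) ≤ 5 := by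
    intro n hn hnN
    have hn0 : (0 : ℝ) < n := by exact_mod_cast hn
    rw [Real.rpow_def_of_pos hn0]
    have h1 : Real.log n ≤ 3 * L :=
      (Real.log_le_log hn0 (by exact_mod_cast hnN)).trans hlogN
    have h2 : Real.log n * (1 / (2 * L)) ≤ 3 / 2 := by
      rw [mul_one_div, div_le_div_iff₀ (by positivity) (by norm_num)]
      linarith
    have h3 : Real.exp (3 / 2) ≤ 5 := by
      have h4 := Real.exp_one_lt_d9
      have h5 : Real.exp (3 / 2) ^ 2 = Real.exp 1 ^ 3 := by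
        rw [← Real.exp_nat_mul, ← Real.exp_nat_mul]
        norm_num
      have h6 : Real.exp 1 ^ 3 ≤ 2.7182818286 ^ 3 :=
        pow_le_pow_left₀ (Real.exp_pos _).le h4.le 3
      have h7 := Real.exp_pos (3 / 2)
      by_contra hcon
      push Not at hcon
      nlinarith
    exact (Real.exp_le_exp.2 h2).trans h3
  -- `ζ = zG` on the ball
  have hdz : DifferentiableOn ℂ riemannZeta (Metric.ball s (1 / (2 * L))) := fun w hw =>
    (differentiableAt_riemannZeta (hne1 w hw)).differentiableWithinAt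
  have hdg : DifferentiableOn ℂ (zG N) (Metric.ball s (1 / (2 * L))) :=
    differentiableOn_zG hN1 Metric.isOpen_ball hre hne1 (fun w hw => (hball w hw).2.2)
  have heq : EqOn (zG N) riemannZeta (Metric.ball s (1 / (2 * L))) := by
    apply (hdg.analyticOnNhd Metric.isOpen_ball).eqOn_of_preconnected_of_eventuallyEq
      (hdz.analyticOnNhd Metric.isOpen_ball) (convex_ball _ _).isPreconnected
      (Metric.mem_ball_self hr0)
    have h1 : ∀ᶠ w in 𝓝 s, 1 < w.re :=
      continuous_re.continuousAt.eventually (lt_mem_nhds hs1)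
    filter_upwards [h1] with w hw
    exact zG_eq hN1 hw
  rw [← heq hw]
  obtain ⟨hb1, hb2, hb3⟩ := hball w hw
  unfold zG
  have e1 : ‖∑ n ∈ Finset.range N, ((n + 1 : ℕ) : ℂ) ^ (-w)‖ ≤ 20 * L := by
    have h1 : ∀ n ∈ Finset.range N, ‖((n + 1 : ℕ) : ℂ) ^ (-w)‖ ≤ 5 * ((n + 1 : ℕ) : ℝ)⁻¹ := by
      intro n hn
      rw [Finset.mem_range] at hn
      rw [norm_natCast_cpow_of_pos (Nat.succ_pos n), neg_re]
      have hn0 : (1 : ℝ) ≤ ((n + 1 : ℕ) : ℝ) := by push_cast; linarith [n.cast_nonneg (α := ℝ)]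
      calc ((n + 1 : ℕ) : ℝ) ^ (-w.re) ≤ ((n + 1 : ℕ) : ℝ) ^ (1 / (2 * L) + (-1)) :=
            Real.rpow_le_rpow_of_exponent_le hn0 (by linarith)
        _ = ((n + 1 : ℕ) : ℝ) ^ (1 / (2 * L)) * ((n + 1 : ℕ) : ℝ)⁻¹ := by
            rw [Real.rpow_add (by linarith), Real.rpow_neg_one]
        _ ≤ _ := mul_le_mul_of_nonneg_right (hpow _ (by omega) (by omega)) (by positivity)
    refine (norm_sum_le_of_le _ h1).trans ?_
    rw [← Finset.mul_sum]
    have h2 : ∑ n ∈ Finset.range N, ((n + 1 : ℕ) : ℝ)⁻¹ ≤ 1 + Real.log N := by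
      have h3 := harmonic_le_one_add_log N
      have h4 : ((harmonic N : ℚ) : ℝ) = ∑ n ∈ Finset.range N, ((n + 1 : ℕ) : ℝ)⁻¹ := by
        unfold harmonic
        push_cast
        rfl
      rwa [h4] at h3
    nlinarith
  have e2 : ‖(N : ℂ) ^ (1 - w) / (w - 1)‖ ≤ 2 := by
    rw [norm_div, norm_natCast_cpow_of_pos (by omega)]
    have h1 : (N : ℝ) ^ (1 - w).re ≤ 5 := by
      refine le_trans (Real.rpow_le_rpow_of_exponent_le (by exact_mod_cast hN1) ?_)
        (hpow N hN1 le_rfl)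
      rw [sub_re, one_re]
      linarith
    have h2 : 5 / 2 ≤ ‖w - 1‖ := by
      have h3 := abs_im_le_norm (w - 1)
      rw [sub_im, one_im, sub_zero] at h3
      linarith
    rw [div_le_iff₀ (by linarith)]
    linarith
  have e3 : ‖∑' k : ℕ, zB (k + N) w‖ ≤ 12 := by
    have h1 : ‖∑' k : ℕ, zB (k + N) w‖ ≤ ∑' k : ℕ, ‖w‖ * ((k + N : ℕ) : ℝ) ^ (-(3 / 2 : ℝ)) :=
      tsum_of_norm_bounded ((summable_tail N).mul_left ‖w‖).hasSum
        (fun k => zB_norm_le (by omega) (hre w hw) (hne1 w hw))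
    rw [tsum_mul_left] at h1
    have h2 := tsum_tail_le hN1
    have h3 : t ≤ Real.sqrt N := Real.le_sqrt_of_sq_le hNt
    have h4 : 6 / Real.sqrt N ≤ 6 / t := div_le_div_of_nonneg_left (by norm_num) (by linarith) h3
    calc _ ≤ ‖w‖ * ∑' k : ℕ, ((k + N : ℕ) : ℝ) ^ (-(3 / 2 : ℝ)) := h1
      _ ≤ (2 * t) * (6 / t) := by
          apply mul_le_mul hb3 (h2.trans h4) _ (by linarith)
          exact tsum_nonneg fun k => by positivity
      _ = 12 := by field_simp; norm_num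
  calc _ ≤ 20 * L + 2 + 12 := (norm_add_le _ _).trans (add_le_add ((norm_add_le _ _).trans
        (add_le_add e1 e2)) e3)
    _ ≤ 34 * L := by linarith

end Pool.Agent.Lib.PrimeGap
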